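import Pool.Agent.Lib.MP_dcbbfc_nt.Cartier

/-! Algebraic power series over `ZMod l`: Ore relations, Cartier operators, logarithmic derivative,
finiteness of the kernel. -/

set_option autoImplicit false

open scoped PowerSeries LaurentSeries Polynomial RatFunc IntermediateField
open Finset

namespace Pool.Agent.Lib.MP_dcbbfc_nt

noncomputable section

variable {l : ℕ} [Fact l.Prime]

/-- `f` is algebraic over the field of rational functions. -/
abbrev Alg (f : (ZMod l)⟦X⟧) : Prop :=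
  IsAlgebraic (RatFunc (ZMod l)) ((f : (ZMod l)⟦X⟧) : (ZMod l)⸨X⸩)

lemma coe_poly (p : (ZMod l)[X]) :
    algebraMap (ZMod l)[X] (ZMod l)⸨X⸩ p = (((p : (ZMod l)[X]) : (ZMod l)⟦X⟧) : (ZMod l)⸨X⸩) := rfl

lemma alg_poly (p : (ZMod l)[X]) : Alg ((p : (ZMod l)[X]) : (ZMod l)⟦X⟧) := by
  have h1 : ((((p : (ZMod l)[X]) : (ZMod l)⟦X⟧) : (ZMod l)⟦X⟧) : (ZMod l)⸨X⸩) =
      algebraMap (RatFunc (ZMod l)) (ZMod l)⸨X⸩ (algebraMap (ZMod l)[X] (RatFunc (ZMod l)) p) := by
    rw [← coe_poly, ← IsScalarTower.algebraMap_apply]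
  rw [Alg, h1]
  exact isAlgebraic_algebraMap _

lemma alg_of_deg {D : ℕ} {c : (ZMod l)⟦X⟧} (h : Deg D c) : Alg c := by
  have h1 : c = ((PowerSeries.trunc (D + 1) c : (ZMod l)[X]) : (ZMod l)⟦X⟧) := by
    ext n
    rw [Polynomial.coeff_coe, PowerSeries.coeff_trunc]
    split_ifs with hn
    · rfl
    · exact h n (by omega)
  rw [h1]
  exact alg_poly _

lemma Alg.add {f g : (ZMod l)⟦X⟧} (hf : Alg f) (hg : Alg g) : Alg (f + g) := by
  rw [Alg, map_add]
  exact IsAlgebraic.add hf hg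

lemma Alg.mul {f g : (ZMod l)⟦X⟧} (hf : Alg f) (hg : Alg g) : Alg (f * g) := by
  rw [Alg, map_mul]
  exact IsAlgebraic.mul hf hg

lemma Alg.pow {f : (ZMod l)⟦X⟧} (hf : Alg f) (n : ℕ) : Alg (f ^ n) := by
  rw [Alg, map_pow]
  exact IsAlgebraic.pow hf n

lemma alg_zero : Alg (0 : (ZMod l)⟦X⟧) := alg_of_deg (Deg.zero 0)

lemma Alg.sum {ι : Type*} (s : Finset ι) (f : ι → (ZMod l)⟦X⟧) (h : ∀ i ∈ s, Alg (f i)) :
    Alg (∑ i ∈ s, f i) := by
  classical
  induction s using Finset.induction_on with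
  | empty => rw [sum_empty]; exact alg_zero
  | insert a s ha ih =>
    rw [sum_insert ha]
    exact (h a (mem_insert_self a s)).add (ih fun i hi => h i (mem_insert_of_mem hi))

/-- If `g * c` and `g ≠ 0` are algebraic then so is `c`. -/
lemma Alg.of_mul {g c : (ZMod l)⟦X⟧} (hg : Alg g) (hg0 : g ≠ 0) (h : Alg (g * c)) : Alg c := by
  have hg0' : ((g : (ZMod l)⟦X⟧) : (ZMod l)⸨X⸩) ≠ 0 := by
    intro h0
    apply hg0
    apply HahnSeries.ofPowerSeries_injective (Γ := ℤ) (R := ZMod l)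
    rw [map_zero]
    exact h0
  have h1 : ((c : (ZMod l)⟦X⟧) : (ZMod l)⸨X⸩) =
      ((g : (ZMod l)⟦X⟧) : (ZMod l)⸨X⸩)⁻¹ * ((g * c : (ZMod l)⟦X⟧) : (ZMod l)⸨X⸩) := by
    rw [map_mul, ← mul_assoc, inv_mul_cancel₀ hg0', one_mul]
  rw [Alg, h1]
  exact IsAlgebraic.mul (IsAlgebraic.inv hg) h

/-- An algebraic power series satisfies a nontrivial Ore relation. -/
lemma exists_rel {f : (ZMod l)⟦X⟧} (h : Alg f) :
    ∃ (r D : ℕ) (a : ℕ → (ZMod l)⟦X⟧), Rel f r D a ∧ a 0 ≠ 0 := by
  classical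
  set x : (ZMod l)⸨X⸩ := ((f : (ZMod l)⟦X⟧) : (ZMod l)⸨X⸩) with hx
  have hfd : FiniteDimensional (RatFunc (ZMod l)) (RatFunc (ZMod l))⟮x⟯ :=
    IntermediateField.adjoin.finiteDimensional h.isIntegral
  have hnot : ¬ LinearIndependent (RatFunc (ZMod l)) (fun i : ℕ => x ^ (l ^ i)) := by
    intro hli
    let v : ℕ → (RatFunc (ZMod l))⟮x⟯ := fun i =>
      (⟨x, IntermediateField.mem_adjoin_simple_self (RatFunc (ZMod l)) x⟩ :
        (RatFunc (ZMod l))⟮x⟯) ^ (l ^ i)
    have hv : LinearIndependent (RatFunc (ZMod l)) v := by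
      apply LinearIndependent.of_comp ((RatFunc (ZMod l))⟮x⟯).val.toLinearMap
      exact hli
    have := hv.finite
    exact not_finite ℕ
  have hnot' : ¬ LinearIndependent (ZMod l)[X] (fun i : ℕ => x ^ (l ^ i)) := by
    rwa [LinearIndependent.iff_fractionRing (ZMod l)[X] (RatFunc (ZMod l))]
  rw [not_linearIndependent_iff] at hnot'
  obtain ⟨s, g, hsum, i0, hi0, hgi0⟩ := hnot'
  set r := s.sup id with hr
  set D := s.sup (fun i => (g i).natDegree) with hD
  set a : ℕ → (ZMod l)⟦X⟧ := fun i => if i ∈ s then ((g i : (ZMod l)[X]) : (ZMod l)⟦X⟧) else 0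
    with ha
  have hsub : s ⊆ range (r + 1) := by
    intro i hi
    rw [mem_range]
    exact Nat.lt_succ_of_le (Finset.le_sup (f := id) hi)
  have hrel : Rel f r D a := by
    refine ⟨?_, ?_⟩
    · intro i n hn
      simp only [ha]
      split_ifs with hi
      · rw [Polynomial.coeff_coe]
        apply Polynomial.coeff_eq_zero_of_natDegree_lt
        exact lt_of_le_of_lt (Finset.le_sup (f := fun i => (g i).natDegree) hi) hn
      · exact map_zero _
    · have h1 : ∑ i ∈ range (r + 1), a i * f ^ (l ^ i) =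
          ∑ i ∈ s, ((g i : (ZMod l)[X]) : (ZMod l)⟦X⟧) * f ^ (l ^ i) := by
        symm
        apply Finset.sum_subset_zero_on_sdiff hsub
        · intro i hi
          rw [mem_sdiff] at hi
          simp only [ha, if_neg hi.2, zero_mul]
        · intro i hi
          simp only [ha, if_pos hi]
      rw [h1]
      apply HahnSeries.ofPowerSeries_injective (Γ := ℤ) (R := ZMod l)
      rw [map_zero, map_sum, ← hsum]
      apply Finset.sum_congr rfl
      intro i _
      rw [map_mul, map_pow, Algebra.smul_def, coe_poly]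
  apply exists_rel_ne_zero f r D a hrel
  refine ⟨i0, ?_, ?_⟩
  · have := mem_range.mp (hsub hi0)
    omega
  · simp only [ha, if_pos hi0]
    intro h0
    apply hgi0
    exact Polynomial.coe_injective (ZMod l) (by rw [h0, Polynomial.coe_zero])

/-- The Cartier operators preserve algebraicity. -/
lemma Alg.La {f : (ZMod l)⟦X⟧} (h : Alg f) {b : ℕ} (hb : b < l) : Alg (La b f) := by
  obtain ⟨r, D, a, hrel, h0⟩ := exists_rel h
  obtain ⟨c, hc, he⟩ := La_mem_HH hrel hb (self_mem_HH hrel)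
  apply Alg.of_mul (alg_of_deg (hrel.1 0)) h0
  rw [he]
  exact Alg.sum _ _ fun i _ => (alg_of_deg (hc i)).mul (h.pow _)

/-- The derivation `X d/dX`. -/
def theta (f : (ZMod l)⟦X⟧) : (ZMod l)⟦X⟧ :=
  PowerSeries.mk fun n => (n : ZMod l) * PowerSeries.coeff n f

lemma theta_eq (f : (ZMod l)⟦X⟧) : theta f =
    ∑ b ∈ range l, PowerSeries.C (b : ZMod l) * (PowerSeries.X ^ b * (La b f) ^ l) := by
  have hl : 0 < l := lpos
  ext n
  rw [theta, PowerSeries.coeff_mk, map_sum]
  have h1 : ∀ b ∈ range l, PowerSeries.coeff n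
      (PowerSeries.C (b : ZMod l) * (PowerSeries.X ^ b * (La b f) ^ l)) =
      if b = n % l then (n : ZMod l) * PowerSeries.coeff n f else 0 := by
    intro b hb
    have hbl := mem_range.mp hb
    rw [PowerSeries.coeff_C_mul, PowerSeries.coeff_X_pow_mul']
    split_ifs with h2 h3 h3
    · rw [coeff_pow_l]
      have hd : l ∣ n - b := by
        rw [h3]
        exact Nat.dvd_sub_mod n
      rw [if_pos hd, coeff_La]
      have h4 : l * ((n - b) / l) + b = n := by
        rw [Nat.mul_div_cancel' hd]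
        omega
      rw [h4]
      congr 1
      rw [h3]
      exact ZMod.natCast_mod n l
    · rw [coeff_pow_l, if_neg, mul_zero]
      intro hd
      apply h3
      obtain ⟨k, hk⟩ := hd
      have h5 : n = b + l * k := by omega
      rw [h5, Nat.add_mul_mod_self_left, Nat.mod_eq_of_lt hbl]
    · exfalso
      apply h2
      rw [h3]
      exact Nat.mod_le n l
    · rw [mul_zero]
  rw [Finset.sum_congr rfl h1, Finset.sum_ite_eq' (range l) (n % l), if_pos]
  exact mem_range.mpr (Nat.mod_lt n hl)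

lemma Alg.theta {f : (ZMod l)⟦X⟧} (h : Alg f) : Alg (theta f) := by
  rw [theta_eq]
  apply Alg.sum
  intro b hb
  have hC : Alg (PowerSeries.C (b : ZMod l)) := by
    apply alg_of_deg (D := 0)
    intro n hn
    rw [PowerSeries.coeff_C, if_neg (by omega)]
  have hX : Alg (PowerSeries.X ^ b : (ZMod l)⟦X⟧) := by
    apply alg_of_deg (D := b)
    intro n hn
    rw [PowerSeries.coeff_X_pow, if_neg (by omega)]
  exact hC.mul (hX.mul ((h.La (mem_range.mp hb)).pow l))

/-- Half of Christol's theorem: the kernel of an algebraic power series is finite. -/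
theorem Alg.kernel_finite {f : (ZMod l)⟦X⟧} (h : Alg f) :
    {u : ℕ → ZMod l | ∃ k b, b < l ^ k ∧ u = fun n => PowerSeries.coeff (l ^ k * n + b) f}.Finite
    := by
  obtain ⟨r, D, a, hrel, h0⟩ := exists_rel h
  refine Set.Finite.subset ((HH_finite f r D h0).image fun g => fun n => PowerSeries.coeff n g) ?_
  rintro u ⟨k, b, hb, rfl⟩
  refine ⟨_, kernel_mem hrel k b hb f (self_mem_HH hrel), ?_⟩
  funext n
  simp only [PowerSeries.coeff_mk]

end

end Pool.Agent.Lib.MP_dcbbfc_nt
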