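import Mathlib

/-! Cartier operators on power series over `ZMod l` and the half of Christol's theorem which says
that an algebraic power series has a finite kernel. -/

set_option autoImplicit false

open scoped PowerSeries LaurentSeries Polynomial RatFunc
open Finset

namespace Pool.Agent.Lib.MP_dcbbfc_nt

noncomputable section

variable {l : ℕ} [Fact l.Prime]

lemma lpos : 0 < l := (Fact.out : l.Prime).pos

/-- The Cartier operator: the coefficients at the places `l n + b`. -/
def La (b : ℕ) (f : (ZMod l)⟦X⟧) : (ZMod l)⟦X⟧ :=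
  PowerSeries.mk fun n => PowerSeries.coeff (l * n + b) f

lemma coeff_La (b n : ℕ) (f : (ZMod l)⟦X⟧) :
    PowerSeries.coeff n (La b f) = PowerSeries.coeff (l * n + b) f := by
  rw [La, PowerSeries.coeff_mk]

lemma La_add (b : ℕ) (f g : (ZMod l)⟦X⟧) : La b (f + g) = La b f + La b g := by
  ext n
  rw [map_add, coeff_La, coeff_La, coeff_La, map_add]

lemma La_zero (b : ℕ) : La b (0 : (ZMod l)⟦X⟧) = 0 := by
  ext n
  rw [coeff_La, map_zero, map_zero]

lemma La_sum {ι : Type*} (b : ℕ) (s : Finset ι) (f : ι → (ZMod l)⟦X⟧) :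
    La b (∑ i ∈ s, f i) = ∑ i ∈ s, La b (f i) := by
  classical
  induction s using Finset.induction_on with
  | empty => rw [sum_empty, sum_empty, La_zero]
  | insert a s ha ih => rw [sum_insert ha, sum_insert ha, La_add, ih]

/-- Frobenius: the `l`-th power is the substitution of `X ^ l`. -/
lemma coeff_pow_l (g : (ZMod l)⟦X⟧) (n : ℕ) :
    PowerSeries.coeff n (g ^ l) = if l ∣ n then PowerSeries.coeff (n / l) g else 0 := by
  have hl : 0 < l := lpos
  have h1 : PowerSeries.coeff n (g ^ l) =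
      Polynomial.coeff ((PowerSeries.trunc (n + 1) g) ^ l) n := by
    have h2 := PowerSeries.trunc_trunc_pow g (n + 1) l
    have h3 : PowerSeries.coeff n (g ^ l) =
        Polynomial.coeff (PowerSeries.trunc (n + 1) (g ^ l)) n := by
      rw [PowerSeries.coeff_trunc, if_pos (Nat.lt_succ_self n)]
    rw [h3, ← h2, PowerSeries.coeff_trunc, if_pos (Nat.lt_succ_self n), ← Polynomial.coe_pow,
      Polynomial.coeff_coe]
  rw [h1, ← ZMod.expand_card, Polynomial.coeff_expand hl]
  split_ifs with h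
  · rw [PowerSeries.coeff_trunc, if_pos]
    exact lt_of_le_of_lt (Nat.div_le_self n l) (Nat.lt_succ_self n)
  · rfl

/-- The projection formula. -/
lemma La_pow_mul {b : ℕ} (hb : b < l) (g h : (ZMod l)⟦X⟧) : La b (g ^ l * h) = g * La b h := by
  have hl : 0 < l := lpos
  ext n
  rw [coeff_La, PowerSeries.coeff_mul, PowerSeries.coeff_mul]
  symm
  refine Finset.sum_bij_ne_zero (fun x _ _ => (l * x.1, l * x.2 + b)) ?_ ?_ ?_ ?_
  · rintro ⟨i, j⟩ hx _
    rw [HasAntidiagonal.mem_antidiagonal] at hx ⊢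
    simp only at hx ⊢
    rw [← hx]
    ring
  · rintro ⟨i, j⟩ _ _ ⟨i', j'⟩ _ _ he
    simp only [Prod.mk.injEq] at he
    have e1 : i = i' := Nat.eq_of_mul_eq_mul_left hl he.1
    have e2 : j = j' := Nat.eq_of_mul_eq_mul_left hl (by omega)
    rw [e1, e2]
  · rintro ⟨i, j⟩ hx hne
    rw [HasAntidiagonal.mem_antidiagonal] at hx
    simp only at hx hne
    rw [coeff_pow_l] at hne
    split_ifs at hne with hd
    · obtain ⟨i', rfl⟩ := hd
      have hin : i' ≤ n := by
        by_contra hc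
        have h1 : n + 1 ≤ i' := by omega
        have h2 : l * (n + 1) ≤ l * i' := Nat.mul_le_mul_left l h1
        have h3 : l * (n + 1) = l * n + l := by ring
        omega
      have hj : j = l * (n - i') + b := by
        have h4 : l * (n - i') + l * i' = l * n := by
          rw [← mul_add, Nat.sub_add_cancel hin]
        omega
      refine ⟨(i', n - i'), ?_, ?_, ?_⟩
      · rw [HasAntidiagonal.mem_antidiagonal]
        simp only
        omega
      · simp only
        rw [coeff_La, ← hj]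
        rw [Nat.mul_div_cancel_left i' hl] at hne
        exact hne
      · simp only
        rw [← hj]
    · exact absurd (zero_mul _) hne
  · rintro ⟨i, j⟩ _ _
    simp only
    rw [coeff_pow_l, if_pos (Dvd.intro i rfl), Nat.mul_div_cancel_left i hl, coeff_La]

/-- The coefficients vanish above `D`. -/
def Deg (D : ℕ) (c : (ZMod l)⟦X⟧) : Prop := ∀ n, D < n → PowerSeries.coeff n c = 0

lemma Deg.mono {D E : ℕ} {c : (ZMod l)⟦X⟧} (h : Deg D c) (hDE : D ≤ E) : Deg E c :=
  fun n hn => h n (lt_of_le_of_lt hDE hn)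

lemma Deg.zero (D : ℕ) : Deg D (0 : (ZMod l)⟦X⟧) := fun _ _ => map_zero _

lemma Deg.one (D : ℕ) : Deg D (1 : (ZMod l)⟦X⟧) := by
  intro n hn
  rw [PowerSeries.coeff_one, if_neg (by omega)]

lemma Deg.sub {D : ℕ} {c e : (ZMod l)⟦X⟧} (h : Deg D c) (h' : Deg D e) : Deg D (c - e) := by
  intro n hn
  rw [map_sub, h n hn, h' n hn, sub_zero]

lemma Deg.mul {D E : ℕ} {c e : (ZMod l)⟦X⟧} (h : Deg D c) (h' : Deg E e) :
    Deg (D + E) (c * e) := by
  intro n hn
  rw [PowerSeries.coeff_mul]
  apply Finset.sum_eq_zero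
  rintro ⟨i, j⟩ hij
  rw [HasAntidiagonal.mem_antidiagonal] at hij
  simp only at hij ⊢
  rcases Nat.lt_or_ge D i with hi | hi
  · rw [h i hi, zero_mul]
  · rw [h' j (by omega), mul_zero]

lemma Deg.pow {D : ℕ} {c : (ZMod l)⟦X⟧} (h : Deg D c) (k : ℕ) : Deg (k * D) (c ^ k) := by
  induction k with
  | zero => rw [pow_zero]; exact Deg.one _
  | succ k ih =>
    rw [pow_succ]
    exact (ih.mul h).mono (by rw [Nat.succ_mul])

lemma Deg.finite (D : ℕ) : {c : (ZMod l)⟦X⟧ | Deg D c}.Finite := by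
  have : NeZero l := ⟨(Fact.out : l.Prime).ne_zero⟩
  have hfin : Finite (Fin (D + 1) → ZMod l) := inferInstance
  apply Set.Finite.of_injOn (f := fun c : (ZMod l)⟦X⟧ => fun i : Fin (D + 1) =>
    PowerSeries.coeff (i : ℕ) c) (t := Set.univ) (fun _ _ => Set.mem_univ _) ?_ Set.finite_univ
  intro c hc e he h
  ext n
  rcases Nat.lt_or_ge D n with hn | hn
  · rw [hc n hn, he n hn]
  · exact congrFun h ⟨n, by omega⟩

/-- A relation `∑ a i * f ^ (l ^ i) = 0` with coefficients of degree `≤ D`. -/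
def Rel (f : (ZMod l)⟦X⟧) (r D : ℕ) (a : ℕ → (ZMod l)⟦X⟧) : Prop :=
  (∀ i, Deg D (a i)) ∧ ∑ i ∈ range (r + 1), a i * f ^ (l ^ i) = 0

/-- From any nontrivial relation we get one with `a 0 ≠ 0`. -/
lemma exists_rel_ne_zero (f : (ZMod l)⟦X⟧) (r : ℕ) :
    ∀ (D : ℕ) (a : ℕ → (ZMod l)⟦X⟧), Rel f r D a → (∃ i, i ≤ r ∧ a i ≠ 0) →
    ∃ (r' D' : ℕ) (a' : ℕ → (ZMod l)⟦X⟧), Rel f r' D' a' ∧ a' 0 ≠ 0 := by
  have hl : 0 < l := lpos
  induction r with
  | zero =>
    rintro D a hrel ⟨i, hi, hne⟩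
    have : i = 0 := by omega
    subst this
    exact ⟨0, D, a, hrel, hne⟩
  | succ r ih =>
    rintro D a hrel ⟨i, hi, hne⟩
    by_cases h0 : a 0 = 0
    · have hi0 : i ≠ 0 := by
        rintro rfl
        exact hne h0
      obtain ⟨j, rfl⟩ : ∃ j, i = j + 1 := ⟨i - 1, by omega⟩
      obtain ⟨n, hn⟩ : ∃ n, PowerSeries.coeff n (a (j + 1)) ≠ 0 := by
        by_contra hc
        push Not at hc
        apply hne
        ext n
        rw [hc n, map_zero]
      set b := n % l with hb
      have hbl : b < l := Nat.mod_lt _ hl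
      apply ih D (fun i => La b (a (i + 1)))
      · refine ⟨?_, ?_⟩
        · intro i m hm
          rw [coeff_La]
          apply hrel.1 (i + 1)
          have : m ≤ l * m := Nat.le_mul_of_pos_left m hl
          omega
        · have h := hrel.2
          rw [sum_range_succ' (fun i => a i * f ^ l ^ i) (r + 1), h0, zero_mul, add_zero] at h
          have h2 := congrArg (La b) h
          rw [La_sum, La_zero] at h2
          rw [← h2]
          apply Finset.sum_congr rfl
          intro i _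
          rw [pow_succ, pow_mul, mul_comm (a (i + 1)), La_pow_mul hbl, mul_comm]
      · refine ⟨j, by omega, ?_⟩
        intro hz
        apply hn
        have h3 := congrArg (PowerSeries.coeff (n / l)) hz
        rw [coeff_La, map_zero] at h3
        have h4 : l * (n / l) + b = n := Nat.div_add_mod n l
        rw [h4] at h3
        exact h3
    · exact ⟨r + 1, D, a, hrel, h0⟩

/-- The finite set containing the kernel. -/
def HH (f : (ZMod l)⟦X⟧) (r D : ℕ) (a0 : (ZMod l)⟦X⟧) : Set (ZMod l)⟦X⟧ :=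
  {h | ∃ c : ℕ → (ZMod l)⟦X⟧, (∀ i, Deg D (c i)) ∧
    a0 * h = ∑ i ∈ range (r + 1), c i * f ^ (l ^ i)}

lemma self_mem_HH {f : (ZMod l)⟦X⟧} {r D : ℕ} {a : ℕ → (ZMod l)⟦X⟧} (hrel : Rel f r D a) :
    f ∈ HH f r D (a 0) := by
  refine ⟨fun i => if i = 0 then a 0 else 0, ?_, ?_⟩
  · intro i
    by_cases hi : i = 0
    · simp only [hi, if_true]
      exact hrel.1 0
    · simp only [hi, if_false]
      exact Deg.zero D
  · rw [Finset.sum_range_succ']
    simp

lemma La_mem_HH {f : (ZMod l)⟦X⟧} {r D : ℕ} {a : ℕ → (ZMod l)⟦X⟧} (hrel : Rel f r D a)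
    {b : ℕ} (hb : b < l) {h : (ZMod l)⟦X⟧} (hh : h ∈ HH f r D (a 0)) :
    La b h ∈ HH f r D (a 0) := by
  have hl2 : 2 ≤ l := (Fact.out : l.Prime).two_le
  obtain ⟨c, hc, he⟩ := hh
  set e : ℕ → (ZMod l)⟦X⟧ := fun i =>
    (a 0) ^ (l - 2) * (a 0 * c (i + 1) - c 0 * a (i + 1)) with hedef
  have hdege : ∀ i, Deg ((l - 2) * D + (D + D)) (e i) := fun i =>
    ((hrel.1 0).pow (l - 2)).mul (((hrel.1 0).mul (hc (i + 1))).sub ((hc 0).mul (hrel.1 (i + 1))))
  have hkey : (a 0) ^ l * h = ∑ i ∈ range r, e i * f ^ (l ^ (i + 1)) := by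
    have h1 : a 0 * f = - ∑ i ∈ range r, a (i + 1) * f ^ (l ^ (i + 1)) := by
      have h2 := hrel.2
      rw [Finset.sum_range_succ', pow_zero, pow_one] at h2
      rw [eq_neg_iff_add_eq_zero, add_comm]
      exact h2
    have h3 : a 0 * (a 0 * h) = ∑ i ∈ range r,
        (a 0 * c (i + 1) - c 0 * a (i + 1)) * f ^ (l ^ (i + 1)) := by
      rw [he, Finset.sum_range_succ', pow_zero, pow_one, mul_add, Finset.mul_sum]
      have h4 : a 0 * (c 0 * f) = c 0 * (a 0 * f) := by ring
      rw [h4, h1, mul_neg, Finset.mul_sum, ← sub_eq_add_neg, ← Finset.sum_sub_distrib]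
      apply Finset.sum_congr rfl
      intro i _
      ring
    have h5 : (a 0) ^ l * h = (a 0) ^ (l - 2) * (a 0 * (a 0 * h)) := by
      have h6 : (a 0) ^ l = (a 0) ^ (l - 2) * (a 0) ^ 2 := by
        rw [← pow_add]
        congr 1
        omega
      rw [h6]
      ring
    rw [h5, h3, Finset.mul_sum]
    apply Finset.sum_congr rfl
    intro i _
    rw [hedef]
    ring
  have hkey2 : a 0 * La b h = ∑ i ∈ range r, La b (e i) * f ^ (l ^ i) := by
    rw [← La_pow_mul hb, hkey, La_sum]
    apply Finset.sum_congr rfl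
    intro i _
    rw [pow_succ, pow_mul, mul_comm (e i), La_pow_mul hb, mul_comm]
  refine ⟨fun i => if i < r then La b (e i) else 0, ?_, ?_⟩
  · intro i
    by_cases hi : i < r
    · simp only [hi, if_true]
      intro n hn
      rw [coeff_La]
      apply hdege i
      have h1 : D + 1 ≤ n := hn
      have h2 : l * (D + 1) ≤ l * n := Nat.mul_le_mul_left l h1
      obtain ⟨k, hk⟩ : ∃ k, l = k + 2 := ⟨l - 2, by omega⟩
      have h3 : l - 2 = k := by omega
      rw [h3]
      have h4 : l * (D + 1) = k * D + (D + D) + (k + 2) := by rw [hk]; ring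
      omega
    · simp only [hi, if_false]
      exact Deg.zero D
  · rw [Finset.sum_range_succ]
    simp only [lt_irrefl, if_false, zero_mul, add_zero]
    rw [hkey2]
    apply Finset.sum_congr rfl
    intro i hi
    rw [if_pos (mem_range.mp hi)]

lemma HH_finite (f : (ZMod l)⟦X⟧) (r D : ℕ) {a0 : (ZMod l)⟦X⟧} (h0 : a0 ≠ 0) :
    (HH f r D a0).Finite := by
  have hfin : (Set.univ.pi fun _ : Fin (r + 1) => {c : (ZMod l)⟦X⟧ | Deg D c}).Finite :=
    Set.Finite.pi fun _ => Deg.finite D
  have hsub : HH f r D a0 ⊆ ⋃ c ∈ (Set.univ.pi fun _ : Fin (r + 1) => {c : (ZMod l)⟦X⟧ | Deg D c}),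
      {h | a0 * h = ∑ i : Fin (r + 1), c i * f ^ (l ^ (i : ℕ))} := by
    rintro h ⟨c, hc, he⟩
    simp only [Set.mem_iUnion]
    refine ⟨fun i => c i, fun i _ => hc i, ?_⟩
    show a0 * h = ∑ i : Fin (r + 1), c i * f ^ (l ^ (i : ℕ))
    rw [he, Finset.sum_range]
  refine Set.Finite.subset (Set.Finite.biUnion hfin fun c _ => ?_) hsub
  apply Set.Subsingleton.finite
  intro x hx y hy
  have : a0 * x = a0 * y := by
    rw [show a0 * x = _ from hx, show a0 * y = _ from hy]
  exact mul_left_cancel₀ h0 this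

/-- The subsequences of the kernel. -/
lemma kernel_mem {f : (ZMod l)⟦X⟧} {r D : ℕ} {a : ℕ → (ZMod l)⟦X⟧} (hrel : Rel f r D a) (k : ℕ) :
    ∀ b, b < l ^ k → ∀ h ∈ HH f r D (a 0),
      (PowerSeries.mk fun n => PowerSeries.coeff (l ^ k * n + b) h) ∈ HH f r D (a 0) := by
  have hl : 0 < l := lpos
  induction k with
  | zero =>
    intro b hb h hh
    have : b = 0 := by simpa using hb
    subst this
    convert hh using 1
    ext n
    rw [PowerSeries.coeff_mk, pow_zero, one_mul, add_zero]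
  | succ k ih =>
    intro b hb h hh
    have hb0 : b % l < l := Nat.mod_lt _ hl
    have hb1 : b / l < l ^ k := by
      rw [Nat.div_lt_iff_lt_mul hl, ← pow_succ]
      exact hb
    have h1 := ih (b / l) hb1 (La (b % l) h) (La_mem_HH hrel hb0 hh)
    convert h1 using 1
    ext n
    rw [PowerSeries.coeff_mk, PowerSeries.coeff_mk, coeff_La]
    have h2 := Nat.div_add_mod b l
    have h3 : l ^ (k + 1) * n + b = l * (l ^ k * n + b / l) + b % l := by
      calc l ^ (k + 1) * n + b = l ^ (k + 1) * n + (l * (b / l) + b % l) := by rw [h2]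
        _ = l * (l ^ k * n + b / l) + b % l := by ring
    rw [h3]

end

end Pool.Agent.Lib.MP_dcbbfc_nt
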