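import Mathlib

/-! Auxiliary estimates: a small prime outside a given finite set, size of the lcm. -/

set_option autoImplicit false

open Finset

namespace Pool.Agent.Lib.MP_dcbbfc_nt

lemma cube_lt_two_pow {Q : ℕ} (h : 10 ≤ Q) : Q ^ 3 < 2 ^ Q := by
  induction Q, h using Nat.le_induction with
  | base => norm_num
  | succ Q hQ ih =>
    have h1 : (Q + 1) ^ 3 ≤ 2 * Q ^ 3 := by
      have h2 : 10 * Q ^ 2 ≤ Q ^ 3 := by
        have : Q ^ 3 = Q * Q ^ 2 := by ring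
        rw [this]
        exact Nat.mul_le_mul_right _ hQ
      have h3 : 10 * Q ≤ Q ^ 2 := by
        have : Q ^ 2 = Q * Q := by ring
        rw [this]
        exact Nat.mul_le_mul_right _ hQ
      have h4 : (Q + 1) ^ 3 = Q ^ 3 + 3 * Q ^ 2 + 3 * Q + 1 := by ring
      omega
    rw [pow_succ 2]
    omega

lemma lcmUpto_le_pow (n : ℕ) (hn : n ≠ 0) : Nat.lcmUpto n ≤ n ^ Nat.primeCounting n := by
  rw [Nat.lcmUpto_eq_prod_pow_log, ← Nat.primesLE_card_eq_primeCounting]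
  apply Finset.prod_le_pow_card
  intro p _
  exact Nat.pow_log_le_self p hn

/-- Weak lower bound for the number of primes. -/
lemma lt_primeCounting_sq {Q : ℕ} (hQ : 10 ≤ Q) : Q < Nat.primeCounting (Q ^ 2) := by
  by_contra hcon
  push Not at hcon
  have h1 := Chebyshev.two_pow_le_mul_lcmUpto (Q ^ 2)
  have hQ2 : Q ^ 2 ≠ 0 := by positivity
  have h2 : Nat.lcmUpto (Q ^ 2) ≤ (Q ^ 2) ^ Q :=
    (lcmUpto_le_pow _ hQ2).trans (Nat.pow_le_pow_right (by positivity) hcon)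
  have h3 : Q ^ 2 + 1 ≤ Q ^ Q := by
    have h4 : Q ^ 2 + 1 ≤ Q ^ 3 := by
      have : Q ^ 3 = Q * Q ^ 2 := by ring
      have h5 : 10 * Q ^ 2 ≤ Q * Q ^ 2 := Nat.mul_le_mul_right _ hQ
      have h6 : 1 ≤ Q ^ 2 := Nat.one_le_pow _ _ (by omega)
      omega
    exact h4.trans (Nat.pow_le_pow_right (by omega) (by omega))
  have h7 : 2 ^ (Q ^ 2) ≤ (Q ^ 3) ^ Q := by
    calc 2 ^ (Q ^ 2) ≤ (Q ^ 2 + 1) * Nat.lcmUpto (Q ^ 2) := h1
      _ ≤ Q ^ Q * (Q ^ 2) ^ Q := Nat.mul_le_mul h3 h2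
      _ = (Q ^ 3) ^ Q := by rw [← mul_pow]; ring
  have h8 : (Q ^ 3) ^ Q < (2 ^ Q) ^ Q := Nat.pow_lt_pow_left (cube_lt_two_pow hQ) (by omega)
  have h9 : (2 ^ Q) ^ Q = 2 ^ (Q ^ 2) := by
    rw [← pow_mul]
    congr 1
    ring
  rw [h9] at h8
  exact absurd (lt_of_le_of_lt h7 h8) (lt_irrefl _)

/-- A small prime outside a given finite set. -/
lemma exists_prime_avoid {Q : ℕ} (hQ : 10 ≤ Q) (F : Finset ℕ) (hF : F.card ≤ Q) :
    ∃ q, q.Prime ∧ q ≤ Q ^ 2 ∧ q ∉ F := by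
  classical
  have h1 := lt_primeCounting_sq hQ
  rw [← Nat.primesLE_card_eq_primeCounting] at h1
  obtain ⟨q, hq, hqF⟩ := exists_mem_notMem_of_card_lt_card (lt_of_le_of_lt hF h1)
  exact ⟨q, Nat.prime_of_mem_primesLE hq, Nat.le_of_mem_primesLE hq, hqF⟩

lemma card_primeFactors_le (j : ℕ) (hj : j ≠ 0) : j.primeFactors.card ≤ Nat.log 2 j := by
  apply Nat.le_log_of_pow_le (by norm_num)
  have h1 : 2 ^ j.primeFactors.card ≤ ∏ p ∈ j.primeFactors, p :=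
    Finset.pow_card_le_prod _ _ _ fun p hp => (Nat.prime_of_mem_primeFactors hp).two_le
  exact h1.trans (Nat.le_of_dvd (Nat.pos_of_ne_zero hj) (Nat.prod_primeFactors_dvd j))

lemma lcmUpto_le_two_pow (y : ℕ) : Nat.lcmUpto y ≤ 2 ^ (8 * y) := by
  have h1 := Chebyshev.psi_le_const_mul_self (x := (y : ℝ)) (Nat.cast_nonneg y)
  rw [Chebyshev.psi_eq_log_lcmUpto] at h1
  have hlog2 : 0.6931471803 < Real.log 2 := Real.log_two_gt_d9
  have h4 : Real.log 4 = 2 * Real.log 2 := by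
    rw [show (4 : ℝ) = 2 ^ 2 by norm_num, Real.log_pow]
    norm_num
  have h2 : Real.log (Nat.lcmUpto y : ℝ) ≤ Real.log ((2 : ℝ) ^ (8 * y)) := by
    rw [Real.log_pow]
    push_cast
    rw [h4] at h1
    have hy : (0 : ℝ) ≤ y := Nat.cast_nonneg y
    nlinarith
  have h3 : (Nat.lcmUpto y : ℝ) ≤ (2 : ℝ) ^ (8 * y) := by
    rwa [Real.log_le_log_iff (by exact_mod_cast Nat.lcmUpto_pos y) (by positivity)] at h2
  exact_mod_cast h3

end Pool.Agent.Lib.MP_dcbbfc_nt
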