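import Pool.Agent.Lib.MP_dcbbfc_nt.Relation
import Pool.Agent.Lib.MP_dcbbfc_nt.Primes

/-! Lower bound for the number of `n ≤ N` with `p_d(n)` different from a periodic sequence modulo
`m`. -/

set_option autoImplicit false

open Finset Filter

namespace Pool.Agent.Lib.MP_dcbbfc_nt

/-- Pigeonhole: a block without elements of a small set. -/
lemma exists_free_block {P : ℕ → Prop} [DecidablePred P] {N K L : ℕ}
    (hcard : ((range (N + 1)).filter P).card ≤ K) (hL : (K + 2) * L ≤ N) :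
    ∃ i, 1 ≤ i ∧ i ≤ K + 1 ∧ ∀ n, i * L < n → n ≤ (i + 1) * L → ¬ P n := by
  classical
  by_contra hcon
  push Not at hcon
  have h1 : ∀ i ∈ Icc 1 (K + 1), ∃ n, i * L < n ∧ n ≤ (i + 1) * L ∧ P n := by
    intro i hi
    rw [mem_Icc] at hi
    exact hcon i hi.1 hi.2
  choose! f hf using h1
  have h2 : (Icc 1 (K + 1)).card ≤ ((range (N + 1)).filter P).card := by
    apply card_le_card_of_injOn f
    · intro i hi
      have hi' := mem_Icc.mp (by exact_mod_cast hi)
      have h3 := hf i (by exact_mod_cast hi)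
      have h4 : (i + 1) * L ≤ (K + 2) * L := Nat.mul_le_mul_right _ (by omega)
      rw [mem_coe, mem_filter, mem_range]
      exact ⟨by omega, h3.2.2⟩
    · intro i hi j hj hij
      have h3 := hf i (by exact_mod_cast hi)
      have h4 := hf j (by exact_mod_cast hj)
      rcases lt_trichotomy i j with h | h | h
      · have h5 : (i + 1) * L ≤ j * L := Nat.mul_le_mul_right _ h
        omega
      · exact h
      · have h5 : (j + 1) * L ≤ i * L := Nat.mul_le_mul_right _ h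
        omega
  rw [Nat.card_Icc] at h2
  omega

/-- Exponential against polynomial. -/
lemma eventually_mul_pow_le (C e : ℕ) : ∀ᶠ μ : ℕ in atTop, C * μ ^ e ≤ 2 ^ μ := by
  have h1 := tendsto_pow_const_div_const_pow_of_one_lt e (r := (2 : ℝ)) (by norm_num)
  have h2 : ∀ᶠ n : ℕ in atTop, (n : ℝ) ^ e / 2 ^ n < 1 / ((C : ℝ) + 1) :=
    h1.eventually (gt_mem_nhds (by positivity))
  filter_upwards [h2] with n hn
  have h3 : (0 : ℝ) < 2 ^ n := by positivity
  rw [div_lt_iff₀ h3] at hn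
  have hC : (0 : ℝ) < (C : ℝ) + 1 := by positivity
  have h4 : ((C : ℝ) + 1) * (n : ℝ) ^ e < 2 ^ n := by
    have h5 := mul_lt_mul_of_pos_left hn hC
    have h6 : ((C : ℝ) + 1) * (1 / ((C : ℝ) + 1) * 2 ^ n) = 2 ^ n := by
      field_simp
    rwa [h6] at h5
  have h7 : (0 : ℝ) ≤ (n : ℝ) ^ e := by positivity
  have h8 : (C : ℝ) * (n : ℝ) ^ e ≤ 2 ^ n := by nlinarith
  exact_mod_cast h8

/-- The number of small primes that are used. -/
def yy (d N : ℕ) : ℕ := (Nat.log 2 N / 8) / (16 * d)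

lemma tendsto_mu : Tendsto (fun N : ℕ => Nat.log 2 N / 8) atTop atTop := by
  rw [tendsto_atTop]
  intro b
  filter_upwards [eventually_ge_atTop (2 ^ (8 * b))] with N hN
  have h1 : 8 * b ≤ Nat.log 2 N := Nat.le_log_of_pow_le (by norm_num) hN
  omega

lemma tendsto_yy {d : ℕ} (hd : 1 ≤ d) : Tendsto (yy d) atTop atTop := by
  rw [tendsto_atTop]
  intro b
  filter_upwards [tendsto_mu.eventually_ge_atTop (b * (16 * d))] with N hN
  exact (Nat.le_div_iff_mul_le (by omega)).mpr hN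

theorem many_nonzero {l d T : ℕ} [Fact l.Prime] (hd : 2 ≤ d) (hT : 0 < T) :
    ∀ᶠ N : ℕ in atTop, yy d N ^ (d - 1) / 4 <
      ((range (N + 1)).filter (fun n => hh l d T n ≠ 0)).card := by
  classical
  set e := 2 * d * (d + 1) + 2 * d with he
  set C := T * 16 ^ (d + 1) * 27 * 16 ^ e with hC
  filter_upwards [tendsto_mu.eventually (eventually_mul_pow_le C e),
    (tendsto_yy (show 1 ≤ d by omega)).eventually_ge_atTop (max T l),
    tendsto_mu.eventually_ge_atTop 1] with N hpoly hyTl hmu1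
  by_contra hcon
  push Not at hcon
  obtain ⟨lam, hlam⟩ : ∃ lam, lam = Nat.log 2 N := ⟨_, rfl⟩
  obtain ⟨μ, hμ⟩ : ∃ μ, μ = lam / 8 := ⟨_, rfl⟩
  have hyy : yy d N = μ / (16 * d) := by rw [hμ, hlam]; rfl
  obtain ⟨y, hy⟩ : ∃ y, y = yy d N := ⟨_, rfl⟩
  rw [← hlam, ← hμ] at hpoly hmu1
  rw [← hy] at hyTl hcon hyy
  have hTy : T ≤ y := (le_max_left _ _).trans hyTl
  have hly : l ≤ y := (le_max_right _ _).trans hyTl
  obtain ⟨K, hK⟩ : ∃ K, K = y ^ (d - 1) / 4 := ⟨_, rfl⟩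
  rw [← hK] at hcon
  obtain ⟨v, hv⟩ : ∃ v, v = 16 * μ := ⟨_, rfl⟩
  have hlamv : lam ≤ v := by omega
  have hyμ : 16 * d * y ≤ μ := by
    rw [hyy]
    exact Nat.mul_div_le μ (16 * d)
  have hyv : y ≤ v := by
    have h1 : 1 * y ≤ 16 * d * y := Nat.mul_le_mul_right _ (by omega)
    omega
  have hv1 : 16 ≤ v := by omega
  have hKv' : K ≤ v ^ (d - 1) := by
    have h1 : y ^ (d - 1) ≤ v ^ (d - 1) := Nat.pow_le_pow_left hyv _
    have h2 : K ≤ y ^ (d - 1) := by rw [hK]; exact Nat.div_le_self _ _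
    exact h2.trans h1
  have hvd : v ^ (d - 1) * v = v ^ d := by
    rw [← pow_succ]
    congr 1
    omega
  have hvpos : 0 < v ^ (d - 1) := pow_pos (by omega) _
  have hKv : K ≤ v ^ d := by
    rw [← hvd]
    exact hKv'.trans (Nat.le_mul_of_pos_right _ (by omega))
  have hvvd : v ≤ v ^ d := by
    rw [← hvd]
    exact Nat.le_mul_of_pos_left _ hvpos
  obtain ⟨s, hs⟩ : ∃ s, s = Nat.sqrt N := ⟨_, rfl⟩
  -- size of `N`
  have hN0 : N ≠ 0 := by
    rintro rfl
    rw [Nat.log_zero_right] at hlam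
    omega
  have hlamN : 2 ^ lam ≤ N := by rw [hlam]; exact Nat.pow_log_le_self 2 hN0
  have hμs : 2 ^ (2 * μ) ≤ s := by
    rw [hs, Nat.le_sqrt, ← pow_add]
    exact (Nat.pow_le_pow_right (by norm_num) (by omega)).trans hlamN
  have hs1 : 1 ≤ s := (Nat.one_le_pow _ _ (by norm_num)).trans hμs
  -- the blocks
  obtain ⟨L, hL⟩ : ∃ L, L = N / (K + 2) := ⟨_, rfl⟩
  have hKL : (K + 2) * L ≤ N := by rw [hL]; exact Nat.mul_div_le N (K + 2)
  obtain ⟨i, hi1, hi2, hfree⟩ := exists_free_block hcon hKL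
  obtain ⟨a, ha⟩ : ∃ a, a = i * L := ⟨_, rfl⟩
  obtain ⟨b, hb⟩ : ∃ b, b = (i + 1) * L := ⟨_, rfl⟩
  rw [← ha, ← hb] at hfree
  have hab : b = a + L := by rw [hb, ha]; ring
  have hbN : b ≤ N := by
    have h1 : (i + 1) * L ≤ (K + 2) * L := Nat.mul_le_mul_right _ (by omega)
    rw [hb]
    exact h1.trans hKL
  obtain ⟨J, hJ⟩ : ∃ J, J = (range (a + 1)).filter (fun j => hh l d T j ≠ 0) := ⟨_, rfl⟩
  have hJK : J.card ≤ K := by
    refine (card_le_card ?_).trans hcon
    intro j hj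
    rw [hJ, mem_filter, mem_range] at hj
    rw [mem_filter, mem_range]
    exact ⟨by omega, hj.2⟩
  -- the prime `q`
  obtain ⟨Q, hQ⟩ : ∃ Q, Q = 4 * v ^ d := ⟨_, rfl⟩
  have hQ10 : 10 ≤ Q := by omega
  obtain ⟨F, hF⟩ : ∃ F, F = Nat.primesLE y ∪ (J.erase 0).biUnion (fun j => j.primeFactors) :=
    ⟨_, rfl⟩
  have hFcard : F.card ≤ Q := by
    have h1 : (Nat.primesLE y).card ≤ y := by
      have h6 : Nat.primesLE y ⊆ Icc 1 y := by
        intro p hp
        rw [Nat.mem_primesLE] at hp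
        exact mem_Icc.mpr ⟨hp.2.one_le, hp.1⟩
      have h7 := card_le_card h6
      rw [Nat.card_Icc] at h7
      omega
    have h2 : ((J.erase 0).biUnion (fun j => j.primeFactors)).card ≤ K * lam := by
      refine card_biUnion_le.trans ?_
      have h3 : ∀ j ∈ J.erase 0, j.primeFactors.card ≤ lam := by
        intro j hj
        rw [mem_erase, hJ, mem_filter, mem_range] at hj
        rw [hlam]
        refine (card_primeFactors_le j hj.1).trans (Nat.log_mono_right ?_)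
        omega
      refine (sum_le_card_nsmul _ _ _ h3).trans ?_
      rw [smul_eq_mul]
      exact Nat.mul_le_mul_right _ ((card_le_card (erase_subset _ _)).trans hJK)
    have h4 : K * lam ≤ v ^ d := by
      rw [← hvd]
      exact Nat.mul_le_mul hKv' hlamv
    have h5 := card_union_le (Nat.primesLE y) ((J.erase 0).biUnion (fun j => j.primeFactors))
    rw [← hF] at h5
    omega
  obtain ⟨q, hq, hqQ, hqF⟩ := exists_prime_avoid hQ10 F hFcard
  have hyq : y < q := by
    by_contra h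
    rw [hF] at hqF
    exact hqF (mem_union_left _ (Nat.mem_primesLE.mpr ⟨by omega, hq⟩))
  have hqJ : ∀ j ∈ J, j ≠ 0 → ¬ q ∣ j := by
    intro j hj hj0 hqj
    rw [hF] at hqF
    exact hqF (mem_union_right _ (mem_biUnion.mpr ⟨j, mem_erase.mpr ⟨hj0, hj⟩,
      Nat.mem_primeFactors.mpr ⟨hq, hqj, hj0⟩⟩))
  -- the length
  have hE : Nat.lcmUpto y ^ (2 * d) ≤ 2 ^ μ := by
    have h1 : Nat.lcmUpto y ^ (2 * d) ≤ (2 ^ (8 * y)) ^ (2 * d) :=
      Nat.pow_le_pow_left (lcmUpto_le_two_pow y) _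
    rw [← pow_mul] at h1
    refine h1.trans (Nat.pow_le_pow_right (by norm_num) ?_)
    have h2 : 8 * y * (2 * d) = 16 * d * y := by ring
    rw [h2]
    exact hyμ
  have hqd : q ^ (d + 1) ≤ 16 ^ (d + 1) * v ^ (2 * d * (d + 1)) := by
    have h1 : q ^ (d + 1) ≤ (Q ^ 2) ^ (d + 1) := Nat.pow_le_pow_left hqQ _
    refine h1.trans (le_of_eq ?_)
    have e1 : Q ^ 2 = 16 * v ^ (2 * d) := by rw [hQ]; ring
    rw [e1, mul_pow, ← pow_mul]
  have hfour : 4 * (J.card * (s + 1)) + 1 ≤ 9 * v ^ d * s := by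
    have h1 : J.card * (s + 1) ≤ v ^ d * (2 * s) :=
      Nat.mul_le_mul (hJK.trans hKv) (by omega)
    have h2 : 1 ≤ v ^ d * s := Nat.mul_pos (pow_pos (by omega) _) hs1
    have h3 : 9 * v ^ d * s = 8 * (v ^ d * s) + v ^ d * s := by ring
    have h4 : v ^ d * (2 * s) = 2 * (v ^ d * s) := by ring
    omega
  have hK2 : K + 2 ≤ 3 * v ^ d := by omega
  obtain ⟨D, hD⟩ : ∃ D, D = (T * Nat.lcmUpto y ^ (2 * d) * q ^ (d + 1)) *
    (4 * (J.card * (s + 1)) + 1) := ⟨_, rfl⟩
  have hDN : D * (K + 2) ≤ N := by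
    have h1 : D ≤ (T * 2 ^ μ * (16 ^ (d + 1) * v ^ (2 * d * (d + 1)))) * (9 * v ^ d * s) := by
      rw [hD]
      exact Nat.mul_le_mul (Nat.mul_le_mul (Nat.mul_le_mul_left _ hE) hqd) hfour
    have h2 : D * (K + 2) ≤
        (T * 2 ^ μ * (16 ^ (d + 1) * v ^ (2 * d * (d + 1)))) * (9 * v ^ d * s) * (3 * v ^ d) :=
      Nat.mul_le_mul h1 hK2
    have h3 : (T * 2 ^ μ * (16 ^ (d + 1) * v ^ (2 * d * (d + 1)))) * (9 * v ^ d * s) *
        (3 * v ^ d) = (T * 16 ^ (d + 1) * 27 * v ^ e) * (2 ^ μ * s) := by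
      rw [he, pow_add, two_mul d, pow_add]
      ring
    have h4 : T * 16 ^ (d + 1) * 27 * v ^ e = C * μ ^ e := by
      rw [hv, mul_pow, hC]
      ring
    rw [h3, h4] at h2
    have h5 : C * μ ^ e * (2 ^ μ * s) ≤ 2 ^ μ * (2 ^ μ * s) := Nat.mul_le_mul_right _ hpoly
    have h6 : 2 ^ μ * (2 ^ μ * s) = 2 ^ (2 * μ) * s := by
      rw [two_mul, pow_add]
      ring
    have h7 : 2 ^ (2 * μ) * s ≤ s * s := Nat.mul_le_mul_right _ hμs
    have h8 : s * s ≤ N := by rw [hs]; exact Nat.sqrt_le N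
    rw [h6] at h5
    exact h2.trans (h5.trans (h7.trans h8))
  have hDL : D ≤ L := by rw [hL]; exact (Nat.le_div_iff_mul_le (by omega)).mpr hDN
  have hTD : T ≤ D := by
    have h1 : 0 < Nat.lcmUpto y ^ (2 * d) := pow_pos (Nat.lcmUpto_pos y) _
    have h2 : 0 < q ^ (d + 1) := pow_pos hq.pos _
    rw [hD]
    calc T = T * 1 * 1 * 1 := by ring
      _ ≤ _ := Nat.mul_le_mul (Nat.mul_le_mul (Nat.mul_le_mul_left _ h1) h2) (by omega)
  have hTa : T ≤ a := by
    have h1 : L ≤ i * L := Nat.le_mul_of_pos_left _ (by omega)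
    omega
  have hbR : b ≤ (s + 1) ^ d := by
    have h1 : N < (s + 1) * (s + 1) := by
      rw [hs]
      exact Nat.lt_succ_sqrt N
    have h2 : (s + 1) * (s + 1) ≤ (s + 1) ^ d := by
      rw [← pow_two]
      exact Nat.pow_le_pow_right (by omega) hd
    omega
  refine no_gap (l := l) (R := s + 1) (a := a) (b := b) (q := q) hd hT hTy hly J (hh l d T) ?_ ?_ ?_
    ?_ hq hyq hqJ hbR ?_ ?_
  · rw [hJ, mem_filter, mem_range, hh_zero d hT]
    exact ⟨by omega, one_ne_zero⟩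
  · rw [hh_zero d hT]
    exact one_ne_zero
  · intro j hj
    rw [hJ, mem_filter, mem_range] at hj
    omega
  · rw [hJ]
    apply gap_relation hTa
    intro n hn hnb
    have := hfree n hn hnb
    rwa [not_not] at this
  · have h1 : 4 * K ≤ y ^ (d - 1) := by rw [hK]; exact Nat.mul_div_le _ 4
    omega
  · rw [← hD]
    omega

/-- `y` is at least a constant times `log N`. -/
lemma log_le_yy {d N : ℕ} (hd : 1 ≤ d) (hy : 1 ≤ yy d N) :
    Real.log N ≤ 264 * d * (yy d N : ℝ) := by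
  set y := yy d N with hy'
  have hyy : yy d N = (Nat.log 2 N / 8) / (16 * d) := rfl
  have h1 : Nat.log 2 N / 8 < 16 * d * (y + 1) := by
    rw [hy', hyy]
    exact Nat.lt_mul_div_succ _ (by omega)
  have h2 : Nat.log 2 N + 1 ≤ 8 * (16 * d * (y + 1)) + 8 := by omega
  have h3 : N < 2 ^ (Nat.log 2 N + 1) := Nat.lt_pow_succ_log_self (by norm_num) N
  have h4 : Real.log N ≤ (Nat.log 2 N + 1 : ℕ) := by
    rcases Nat.eq_zero_or_pos N with h0 | hpos
    · rw [h0]
      simp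
    · have h5 : (N : ℝ) ≤ (2 : ℝ) ^ (Nat.log 2 N + 1) := by exact_mod_cast h3.le
      have h6 := Real.log_le_log (by exact_mod_cast hpos) h5
      rw [Real.log_pow] at h6
      have h7 : Real.log 2 ≤ 1 := by
        have := Real.log_two_lt_d9
        linarith
      have h8 : (0 : ℝ) ≤ ((Nat.log 2 N + 1 : ℕ) : ℝ) := Nat.cast_nonneg _
      nlinarith
  have h9 : 8 * (16 * d * (y + 1)) + 8 ≤ 264 * d * y := by
    have h10 : d ≤ d * y := Nat.le_mul_of_pos_right _ hy
    have h11 : 8 * (16 * d * (y + 1)) = 128 * (d * y) + 128 * d := by ring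
    have h12 : 264 * d * y = 264 * (d * y) := by ring
    omega
  have h13 : ((Nat.log 2 N + 1 : ℕ) : ℝ) ≤ ((264 * d * y : ℕ) : ℝ) := by
    exact_mod_cast h2.trans h9
  push_cast at h13 h4 ⊢
  linarith

/-- The constant. -/
noncomputable def cd (d : ℕ) : ℝ := 1 / (16 * (264 * d) ^ (d - 1))

lemma cd_pos {d : ℕ} (hd : 2 ≤ d) : 0 < cd d := by
  have : (0 : ℝ) < d := by exact_mod_cast (by omega : 0 < d)
  unfold cd
  positivity

lemma card_eq_filter (N : ℕ) (P : ℕ → Prop) [DecidablePred P] :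
    Nat.card {n : ℕ // n ≤ N ∧ P n} = ((range (N + 1)).filter P).card := by
  have e1 : Nat.card {n : ℕ // n ≤ N ∧ P n} =
      Nat.card {n : ℕ // n ∈ (range (N + 1)).filter P} := by
    apply Nat.card_congr
    apply Equiv.subtypeEquivRight
    intro n
    rw [mem_filter, mem_range, Nat.lt_succ_iff]
  rw [e1, Nat.card_eq_fintype_card, Fintype.card_coe]

lemma cd_le {d N : ℕ} (hd : 2 ≤ d) (h3 : 1 ≤ yy d N) {B : ℕ}
    (hmain : yy d N ^ (d - 1) ≤ 16 * B) : cd d * Real.log N ^ (d - 1) ≤ B := by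
  have hlog := log_le_yy (show 1 ≤ d by omega) h3
  have hlog0 : 0 ≤ Real.log N := Real.log_natCast_nonneg N
  have hpow : Real.log N ^ (d - 1) ≤ (264 * d) ^ (d - 1) * (yy d N : ℝ) ^ (d - 1) := by
    rw [← mul_pow]
    exact pow_le_pow_left₀ hlog0 hlog _
  have hBr : (yy d N : ℝ) ^ (d - 1) ≤ 16 * (B : ℝ) := by exact_mod_cast hmain
  have hd1 : (0 : ℝ) < d := by exact_mod_cast (by omega : 0 < d)
  have hd0 : (0 : ℝ) < (264 * d) ^ (d - 1) := by positivity
  unfold cd
  rw [one_div, inv_mul_le_iff₀ (by positivity)]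
  calc Real.log N ^ (d - 1) ≤ (264 * d) ^ (d - 1) * (yy d N : ℝ) ^ (d - 1) := hpow
    _ ≤ (264 * d) ^ (d - 1) * (16 * (B : ℝ)) := mul_le_mul_of_nonneg_left hBr hd0.le
    _ = 16 * (264 * d) ^ (d - 1) * (B : ℝ) := by ring

lemma tendsto_yy_pow {d : ℕ} (hd : 2 ≤ d) :
    Tendsto (fun N => yy d N ^ (d - 1)) atTop atTop := by
  have h1 : Tendsto (fun n : ℕ => n ^ (d - 1)) atTop atTop := tendsto_pow_atTop (by omega)
  exact h1.comp (tendsto_yy (show 1 ≤ d by omega))

/-- Many changes of the residue. -/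
theorem changes {d : ℕ} (hd : 2 ≤ d) (m : ℕ) (hm : m ≠ 1) (T : ℕ) (hT : 0 < T) :
    ∀ᶠ N : ℕ in atTop, cd d * Real.log N ^ (d - 1) ≤
      (Nat.card {n : ℕ // n ≤ N ∧ ¬ pd d (n + T) ≡ pd d n [MOD m]} : ℝ) := by
  classical
  obtain ⟨l, hl, hlm⟩ := Nat.exists_prime_and_dvd hm
  have : Fact l.Prime := ⟨hl⟩
  filter_upwards [many_nonzero (l := l) hd hT,
    (tendsto_yy_pow hd).eventually_ge_atTop (8 * T + 8),
    (tendsto_yy (show 1 ≤ d by omega)).eventually_ge_atTop 1] with N h1 h2 h3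
  rw [card_eq_filter]
  apply cd_le hd h3
  obtain ⟨B, hB⟩ : ∃ B, B = (range (N + 1)).filter
    (fun n => ¬ pd d (n + T) ≡ pd d n [MOD m]) := ⟨_, rfl⟩
  obtain ⟨A, hA⟩ : ∃ A, A = (range (N + 1)).filter (fun n => hh l d T n ≠ 0) := ⟨_, rfl⟩
  rw [← hA] at h1
  rw [← hB]
  have hsub : A ⊆ range T ∪ B.image (fun n => n + T) := by
    intro n hn
    rw [hA, mem_filter, mem_range] at hn
    by_cases hlt : n < T
    · exact mem_union_left _ (mem_range.mpr hlt)
    · apply mem_union_right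
      rw [mem_image]
      refine ⟨n - T, ?_, by omega⟩
      by_contra hB2
      apply hn.2
      rw [hB, mem_filter, mem_range, not_and, not_not] at hB2
      have e2 := hB2 (by omega)
      have e4 : n - T + T = n := by omega
      rw [e4] at e2
      rw [hh, if_pos (by omega), sub_eq_zero]
      exact (ZMod.natCast_eq_natCast_iff _ _ _).mpr (e2.of_dvd hlm)
  have h5 := card_le_card hsub
  have h6 := card_union_le (range T) (B.image (fun n => n + T))
  have h8 : (B.image (fun n => n + T)).card ≤ B.card := card_image_le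
  rw [card_range] at h6
  omega

/-- Many deviations from a sequence which is periodic from some place on. -/
theorem deviations {d : ℕ} (hd : 2 ≤ d) (m : ℕ) (hm : m ≠ 1) (T : ℕ) (hT : 0 < T)
    (v : ℕ → ℕ) (hv : ∃ n0, ∀ n, n0 ≤ n → v (n + T) ≡ v n [MOD m]) :
    ∀ᶠ N : ℕ in atTop, cd d * Real.log N ^ (d - 1) ≤
      (Nat.card {n : ℕ // n ≤ N ∧ ¬ pd d n ≡ v n [MOD m]} : ℝ) := by
  classical
  obtain ⟨n0, hn0⟩ := hv
  obtain ⟨l, hl, hlm⟩ := Nat.exists_prime_and_dvd hm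
  have : Fact l.Prime := ⟨hl⟩
  filter_upwards [many_nonzero (l := l) hd hT,
    (tendsto_yy_pow hd).eventually_ge_atTop (8 * (n0 + T) + 8),
    (tendsto_yy (show 1 ≤ d by omega)).eventually_ge_atTop 1] with N h1 h2 h3
  rw [card_eq_filter]
  apply cd_le hd h3
  obtain ⟨B, hB⟩ : ∃ B, B = (range (N + 1)).filter (fun n => ¬ pd d n ≡ v n [MOD m]) := ⟨_, rfl⟩
  obtain ⟨A, hA⟩ : ∃ A, A = (range (N + 1)).filter (fun n => hh l d T n ≠ 0) := ⟨_, rfl⟩
  rw [← hA] at h1
  rw [← hB]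
  -- the nonzero places of `hh` come from `B`
  have hsub : A ⊆ range (n0 + T) ∪ (B ∪ B.image (fun n => n + T)) := by
    intro n hn
    rw [hA, mem_filter, mem_range] at hn
    by_cases hlt : n < n0 + T
    · exact mem_union_left _ (mem_range.mpr hlt)
    · apply mem_union_right
      by_cases hB1 : n ∈ B
      · exact mem_union_left _ hB1
      · apply mem_union_right
        rw [mem_image]
        refine ⟨n - T, ?_, by omega⟩
        by_contra hB2
        apply hn.2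
        rw [hB, mem_filter, mem_range, not_and, not_not] at hB1 hB2
        have e1 := hB1 hn.1
        have e2 := hB2 (by omega)
        have e3 := hn0 (n - T) (by omega)
        have e4 : n - T + T = n := by omega
        rw [e4] at e3
        have e5 : pd d n ≡ pd d (n - T) [MOD m] := e1.trans (e3.trans e2.symm)
        rw [hh, if_pos (by omega), sub_eq_zero]
        exact (ZMod.natCast_eq_natCast_iff _ _ _).mpr (e5.of_dvd hlm)
  have h5 := card_le_card hsub
  have h6 := card_union_le (range (n0 + T)) (B ∪ B.image (fun n => n + T))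
  have h7 := card_union_le B (B.image (fun n => n + T))
  have h8 : (B.image (fun n => n + T)).card ≤ B.card := card_image_le
  rw [card_range] at h6
  omega

end Pool.Agent.Lib.MP_dcbbfc_nt
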