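import Pool.Agent.Lib.MP_dcbbfc_nt.Algebraic

/-! A power series over `ZMod l` with a finite kernel is algebraic (the other half of Christol's
theorem). -/

set_option autoImplicit false

open scoped PowerSeries LaurentSeries Polynomial RatFunc
open Finset

namespace Pool.Agent.Lib.MP_dcbbfc_nt

noncomputable section

variable {l : ℕ} [Fact l.Prime]

/-- Decomposition by the residue of the exponent. -/
lemma decomp (g : (ZMod l)⟦X⟧) : g = ∑ b ∈ range l, PowerSeries.X ^ b * (La b g) ^ l := by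
  have hl : 0 < l := lpos
  ext n
  rw [map_sum]
  have h1 : ∀ b ∈ range l, PowerSeries.coeff n (PowerSeries.X ^ b * (La b g) ^ l) =
      if b = n % l then PowerSeries.coeff n g else 0 := by
    intro b hb
    have hbl := mem_range.mp hb
    rw [PowerSeries.coeff_X_pow_mul']
    split_ifs with h2 h3 h3
    · rw [coeff_pow_l]
      have hd : l ∣ n - b := by
        rw [h3]
        exact Nat.dvd_sub_mod n
      rw [if_pos hd, coeff_La]
      have h4 : l * ((n - b) / l) + b = n := by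
        rw [Nat.mul_div_cancel' hd]
        omega
      rw [h4]
    · rw [coeff_pow_l, if_neg]
      intro hd
      apply h3
      obtain ⟨k, hk⟩ := hd
      have h5 : n = b + l * k := by omega
      rw [h5, Nat.add_mul_mod_self_left, Nat.mod_eq_of_lt hbl]
    · exfalso
      apply h2
      rw [h3]
      exact Nat.mod_le n l
    · rfl
  rw [Finset.sum_congr rfl h1, Finset.sum_ite_eq' (range l) (n % l), if_pos]
  exact mem_range.mpr (Nat.mod_lt n hl)

open Classical in
/-- The span of the `l ^ m`-th powers of the elements of `S`. -/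
def VV (S : Finset (ZMod l)⟦X⟧) (m : ℕ) : Submodule (RatFunc (ZMod l)) (ZMod l)⸨X⸩ :=
  Submodule.span (RatFunc (ZMod l))
    (S.image (fun g : (ZMod l)⟦X⟧ => ((g : (ZMod l)⟦X⟧) : (ZMod l)⸨X⸩) ^ (l ^ m)) :
      Set (ZMod l)⸨X⸩)

lemma mem_VV {S : Finset (ZMod l)⟦X⟧} {g : (ZMod l)⟦X⟧} (hg : g ∈ S) (m : ℕ) :
    ((g : (ZMod l)⟦X⟧) : (ZMod l)⸨X⸩) ^ (l ^ m) ∈ VV S m := by
  classical
  apply Submodule.subset_span
  rw [Finset.mem_coe, Finset.mem_image]
  exact ⟨g, hg, rfl⟩

lemma charP_laurent : CharP (ZMod l)⸨X⸩ l :=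
  charP_of_injective_algebraMap (algebraMap (ZMod l) (ZMod l)⸨X⸩).injective l

lemma mem_VV_succ {S : Finset (ZMod l)⟦X⟧} (hS : ∀ g ∈ S, ∀ b < l, La b g ∈ S)
    {g : (ZMod l)⟦X⟧} (hg : g ∈ S) (m : ℕ) :
    ((g : (ZMod l)⟦X⟧) : (ZMod l)⸨X⸩) ^ (l ^ m) ∈ VV S (m + 1) := by
  classical
  have : CharP (ZMod l)⸨X⸩ l := charP_laurent
  have : ExpChar (ZMod l)⸨X⸩ l := ExpChar.prime Fact.out
  have h1 : ((g : (ZMod l)⟦X⟧) : (ZMod l)⸨X⸩) ^ (l ^ m) =
      ∑ b ∈ range l, ((algebraMap (RatFunc (ZMod l)) (ZMod l)⸨X⸩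
        (algebraMap (ZMod l)[X] (RatFunc (ZMod l)) (Polynomial.X ^ b))) ^ (l ^ m)) *
        ((La b g : (ZMod l)⟦X⟧) : (ZMod l)⸨X⸩) ^ (l ^ (m + 1)) := by
    conv_lhs => rw [decomp g]
    rw [map_sum, sum_pow_char_pow]
    apply Finset.sum_congr rfl
    intro b _
    rw [map_mul, mul_pow, map_pow (HahnSeries.ofPowerSeries ℤ (ZMod l)) (La b g) l, ← pow_mul,
      ← pow_succ']
    congr 2
    rw [← IsScalarTower.algebraMap_apply, coe_poly, Polynomial.coe_pow, Polynomial.coe_X]
  rw [h1]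
  apply Submodule.sum_mem
  intro b hb
  rw [← map_pow, ← Algebra.smul_def]
  exact Submodule.smul_mem _ _ (mem_VV (hS g hg b (mem_range.mp hb)) (m + 1))

lemma VV_mono {S : Finset (ZMod l)⟦X⟧} (hS : ∀ g ∈ S, ∀ b < l, La b g ∈ S) :
    Monotone (VV S) := by
  classical
  apply monotone_nat_of_le_succ
  intro m
  rw [VV, Submodule.span_le]
  intro y hy
  rw [Finset.mem_coe, Finset.mem_image] at hy
  obtain ⟨g, hg, rfl⟩ := hy
  exact mem_VV_succ hS hg m

/-- A finite set of power series stable under the Cartier operators consists of algebraic ones. -/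
theorem alg_of_stable {S : Finset (ZMod l)⟦X⟧} (hS : ∀ g ∈ S, ∀ b < l, La b g ∈ S)
    {f : (ZMod l)⟦X⟧} (hf : f ∈ S) : Alg f := by
  classical
  have hl : l.Prime := Fact.out
  set x : (ZMod l)⸨X⸩ := ((f : (ZMod l)⟦X⟧) : (ZMod l)⸨X⸩) with hx
  set r := S.card with hr
  have hmem : ∀ i : Fin (r + 1), x ^ (l ^ (i : ℕ)) ∈ VV S r := fun i =>
    VV_mono hS (Nat.lt_succ_iff.mp i.2) (mem_VV hf (i : ℕ))
  have hfin : Module.Finite (RatFunc (ZMod l)) (VV S r) :=
    FiniteDimensional.span_finset (RatFunc (ZMod l)) _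
  have hcard : Module.finrank (RatFunc (ZMod l)) (VV S r) ≤ r :=
    (finrank_span_finset_le_card _).trans Finset.card_image_le
  have hnot : ¬ LinearIndependent (RatFunc (ZMod l)) (fun i : Fin (r + 1) => x ^ (l ^ (i : ℕ))) := by
    intro hli
    have h1 : LinearIndependent (RatFunc (ZMod l))
        (fun i : Fin (r + 1) => (⟨x ^ (l ^ (i : ℕ)), hmem i⟩ : VV S r)) := by
      apply LinearIndependent.of_comp (VV S r).subtype
      exact hli
    have h2 := h1.fintype_card_le_finrank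
    rw [Fintype.card_fin] at h2
    omega
  rw [not_linearIndependent_iff] at hnot
  obtain ⟨s, c, hsum, i0, hi0, hci0⟩ := hnot
  refine ⟨∑ i ∈ s, Polynomial.C (c i) * Polynomial.X ^ (l ^ (i : ℕ)), ?_, ?_⟩
  · intro h0
    apply hci0
    have h1 := congrArg (fun P => Polynomial.coeff P (l ^ (i0 : ℕ))) h0
    simp only [Polynomial.finset_sum_coeff, Polynomial.coeff_C_mul_X_pow,
      Polynomial.coeff_zero] at h1
    rw [Finset.sum_eq_single i0] at h1
    · rwa [if_pos rfl] at h1
    · intro i _ hne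
      rw [if_neg]
      intro h2
      apply hne
      exact Fin.ext (Nat.pow_right_injective hl.two_le h2.symm)
    · intro h2
      exact absurd hi0 h2
  · rw [map_sum]
    rw [← hsum]
    apply Finset.sum_congr rfl
    intro i _
    rw [map_mul, Polynomial.aeval_C, map_pow, Polynomial.aeval_X, Algebra.smul_def]

/-- A power series with a finite kernel is algebraic. -/
theorem alg_of_kernel_finite {u : ℕ → ZMod l}
    (h : {v : ℕ → ZMod l | ∃ k b, b < l ^ k ∧ v = fun n => u (l ^ k * n + b)}.Finite) :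
    Alg (PowerSeries.mk u) := by
  classical
  have hl : 0 < l := lpos
  apply alg_of_stable (S := h.toFinset.image (fun v => PowerSeries.mk v))
  · intro g hg b hb
    rw [Finset.mem_image] at hg ⊢
    obtain ⟨v, hv, rfl⟩ := hg
    rw [Set.Finite.mem_toFinset] at hv
    obtain ⟨k, c, hc, rfl⟩ := hv
    refine ⟨fun n => u (l ^ (k + 1) * n + (l ^ k * b + c)), ?_, ?_⟩
    · rw [Set.Finite.mem_toFinset]
      refine ⟨k + 1, l ^ k * b + c, ?_, rfl⟩
      have h1 : l ^ k * (b + 1) ≤ l ^ k * l := Nat.mul_le_mul_left _ hb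
      rw [pow_succ]
      have h2 : l ^ k * (b + 1) = l ^ k * b + l ^ k := by ring
      omega
    · ext n
      rw [coeff_La, PowerSeries.coeff_mk, PowerSeries.coeff_mk]
      congr 1
      ring
  · rw [Finset.mem_image]
    refine ⟨u, ?_, rfl⟩
    rw [Set.Finite.mem_toFinset]
    refine ⟨0, 0, by rw [pow_zero]; exact Nat.one_pos, ?_⟩
    funext n
    rw [pow_zero, one_mul, add_zero]

end

end Pool.Agent.Lib.MP_dcbbfc_nt
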