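import Pool.Agent.Lib.MP_dcbbfc_nt.Values

/-! A linear relation with few terms between the shifts of `n ↦ ∑_{k^d ∣ n} k^d` modulo `l` does
not hold on a long interval. -/

set_option autoImplicit false

open Finset

namespace Pool.Agent.Lib.MP_dcbbfc_nt

lemma sd_congr {d x x' : ℕ} (hx : 0 < x) (hx' : 0 < x') (h : ∀ k, k ^ d ∣ x ↔ k ^ d ∣ x') :
    sd d x = sd d x' := by
  classical
  rw [sd_eq, sd_eq]
  apply sum_congr
  · ext i
    simp only [mem_filter, Nat.mem_divisors]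
    constructor
    · rintro ⟨⟨hi, _⟩, k, rfl⟩
      exact ⟨⟨(h k).mp hi, hx'.ne'⟩, k, rfl⟩
    · rintro ⟨⟨hi, _⟩, k, rfl⟩
      exact ⟨⟨(h k).mpr hi, hx.ne'⟩, k, rfl⟩
  · intro i _
    rfl

lemma pow_dvd_transfer {d y x x' : ℕ}
    (hsmall : ∀ p, p.Prime → p ≤ y → ∃ e, ¬ p ^ e ∣ x ∧ x ≡ x' [MOD p ^ e])
    (hbig : ∀ p, p.Prime → y < p → ¬ p ^ d ∣ x) {k : ℕ} (hk : k ^ d ∣ x) : k ^ d ∣ x' := by
  rw [Nat.dvd_iff_prime_pow_dvd_dvd]
  intro p f hp hf
  rcases Nat.eq_zero_or_pos f with h0 | hpos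
  · rw [h0, pow_zero]
    exact one_dvd _
  · have hpk : p ∣ k := hp.dvd_of_dvd_pow ((dvd_pow_self p hpos.ne').trans hf)
    have hpd : p ^ d ∣ x := (pow_dvd_pow_of_dvd hpk d).trans hk
    have hpy : p ≤ y := by
      by_contra hcon
      exact hbig p hp (by omega) hpd
    obtain ⟨e, he, hmod⟩ := hsmall p hp hpy
    have hfx : p ^ f ∣ x := hf.trans hk
    have hfe : f ≤ e := by
      by_contra hcon
      exact he ((pow_dvd_pow p (by omega)).trans hfx)
    have hmod' : x ≡ x' [MOD p ^ f] := hmod.of_dvd (pow_dvd_pow p hfe)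
    exact (Nat.modEq_zero_iff_dvd).mp (hmod'.symm.trans ((Nat.modEq_zero_iff_dvd).mpr hfx))

lemma sd_eq_of_local {d y x x' : ℕ} (hx : 0 < x) (hx' : 0 < x')
    (hsmall : ∀ p, p.Prime → p ≤ y → ∃ e, ¬ p ^ e ∣ x ∧ x ≡ x' [MOD p ^ e])
    (hbig : ∀ p, p.Prime → y < p → ¬ p ^ d ∣ x)
    (hbig' : ∀ p, p.Prime → y < p → ¬ p ^ d ∣ x') : sd d x = sd d x' := by
  apply sd_congr hx hx'
  intro k
  constructor
  · exact pow_dvd_transfer hsmall hbig
  · apply pow_dvd_transfer _ hbig'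
    intro p hp hpy
    obtain ⟨e, he, hmod⟩ := hsmall p hp hpy
    refine ⟨e, fun h => he ?_, hmod.symm⟩
    exact (Nat.modEq_zero_iff_dvd).mp (hmod.trans ((Nat.modEq_zero_iff_dvd).mpr h))

lemma sd_eq_one {d x : ℕ} (hd : 1 ≤ d) (hx : 0 < x) (h : ∀ p, p.Prime → ¬ p ^ d ∣ x) :
    sd d x = 1 := by
  classical
  rw [sd_eq]
  have : x.divisors.filter (fun i => ∃ k : ℕ, k ^ d = i) = {1} := by
    ext i
    simp only [mem_filter, Nat.mem_divisors, mem_singleton]
    constructor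
    · rintro ⟨⟨hi, _⟩, k, rfl⟩
      have hk1 : k = 1 := by
        by_contra hk
        obtain ⟨q, hq, hqk⟩ := Nat.exists_prime_and_dvd hk
        exact h q hq ((pow_dvd_pow_of_dvd hqk d).trans hi)
      rw [hk1, one_pow]
    · rintro rfl
      exact ⟨⟨one_dvd _, hx.ne'⟩, 1, one_pow d⟩
  rw [this, sum_singleton]

lemma sd_eq_one_add {d x q : ℕ} (hd : 1 ≤ d) (hx : 0 < x) (hq : q.Prime) (h1 : q ^ d ∣ x)
    (h2 : ¬ q ^ (d + 1) ∣ x) (h3 : ∀ p, p.Prime → p ≠ q → ¬ p ^ d ∣ x) :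
    sd d x = 1 + q ^ d := by
  classical
  rw [sd_eq]
  have : x.divisors.filter (fun i => ∃ k : ℕ, k ^ d = i) = {1, q ^ d} := by
    ext i
    simp only [mem_filter, Nat.mem_divisors, mem_insert, mem_singleton]
    constructor
    · rintro ⟨⟨hi, _⟩, k, rfl⟩
      have hk0 : k ≠ 0 := by
        rintro rfl
        rw [zero_pow (by omega)] at hi
        exact hx.ne' (zero_dvd_iff.mp hi)
      have huniq : ∀ {r : ℕ}, r.Prime → r ∣ k → r = q := by
        intro r hr hrk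
        by_contra hrq
        exact h3 r hr hrq ((pow_dvd_pow_of_dvd hrk d).trans hi)
      have hk := Nat.eq_prime_pow_of_unique_prime_dvd hk0 huniq
      set j := k.primeFactorsList.length with hj
      rcases Nat.lt_or_ge j 2 with h | h
      · interval_cases j
        · left
          rw [hk, pow_zero, one_pow]
        · right
          rw [hk, pow_one]
      · exfalso
        apply h2
        refine Dvd.dvd.trans ?_ hi
        rw [hk, ← pow_mul]
        apply pow_dvd_pow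
        have : 2 * d ≤ j * d := Nat.mul_le_mul_right d h
        omega
    · rintro (rfl | rfl)
      · exact ⟨⟨one_dvd _, hx.ne'⟩, 1, one_pow d⟩
      · exact ⟨⟨h1, hx.ne'⟩, q, rfl⟩
  rw [this, sum_pair]
  exact (Nat.one_lt_pow (by omega) hq.one_lt).ne

lemma card_dvd_le (a0 a1 P T : ℕ) (hco : Nat.Coprime P a1) (hP : 0 < P) :
    ((range T).filter (fun t => P ∣ a0 + a1 * t)).card ≤ T / P + 1 := by
  classical
  rcases ((range T).filter (fun t => P ∣ a0 + a1 * t)).eq_empty_or_nonempty with h | ⟨t0, ht0⟩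
  · rw [h, card_empty]
    exact Nat.zero_le _
  rw [mem_filter] at ht0
  have hsub : ∀ t ∈ (range T).filter (fun t => P ∣ a0 + a1 * t), t % P = t0 % P := by
    intro t ht
    rw [mem_filter] at ht
    have h1 : a0 + a1 * t ≡ a0 + a1 * t0 [MOD P] :=
      ((Nat.modEq_zero_iff_dvd).mpr ht.2).trans ((Nat.modEq_zero_iff_dvd).mpr ht0.2).symm
    have h2 : a1 * t ≡ a1 * t0 [MOD P] := Nat.ModEq.add_left_cancel' a0 h1
    exact Nat.ModEq.cancel_left_of_coprime (by rw [Nat.coprime_iff_gcd_eq_one] at hco; exact hco) h2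
  have hinj : Set.InjOn (fun t => t / P)
      ((range T).filter (fun t => P ∣ a0 + a1 * t) : Set ℕ) := by
    intro t ht t' ht' h
    have e1 := hsub t (by exact_mod_cast ht)
    have e2 := hsub t' (by exact_mod_cast ht')
    have h3 := Nat.div_add_mod t P
    have h4 := Nat.div_add_mod t' P
    simp only at h
    rw [← h3, ← h4, h, e1, e2]
  calc ((range T).filter (fun t => P ∣ a0 + a1 * t)).card
      = (((range T).filter (fun t => P ∣ a0 + a1 * t)).image (fun t => t / P)).card :=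
        (card_image_of_injOn hinj).symm
    _ ≤ (range (T / P + 1)).card := by
        apply card_le_card
        intro s hs
        rw [mem_image] at hs
        obtain ⟨t, ht, rfl⟩ := hs
        rw [mem_filter, mem_range] at ht
        rw [mem_range]
        exact Nat.lt_succ_of_le (Nat.div_le_div_right ht.1.le)
    _ = T / P + 1 := card_range _

lemma sum_inv_pow_le {d y R : ℕ} (hd : 2 ≤ d) (hy : 1 ≤ y) :
    ∑ k ∈ Ioc y R, (1 : ℚ) / (k : ℚ) ^ d ≤ 1 / (y : ℚ) ^ (d - 1) := by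
  have hy0 : (0 : ℚ) < y := by exact_mod_cast hy
  rcases Nat.lt_or_ge R y with h | h
  · rw [Ioc_eq_empty (by omega), sum_empty]
    positivity
  · have h1 := sum_Ioc_inv_sq_le_sub (α := ℚ) (show y ≠ 0 by omega) h
    have h2 : ∑ k ∈ Ioc y R, (1 : ℚ) / (k : ℚ) ^ d ≤
        ∑ k ∈ Ioc y R, (1 / (y : ℚ) ^ (d - 2)) * ((k : ℚ) ^ 2)⁻¹ := by
      apply sum_le_sum
      intro k hk
      rw [mem_Ioc] at hk
      have hk0 : (0 : ℚ) < k := by exact_mod_cast (by omega : 0 < k)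
      have hyk : (y : ℚ) ≤ k := by exact_mod_cast hk.1.le
      have h3 : (y : ℚ) ^ (d - 2) * (k : ℚ) ^ 2 ≤ (k : ℚ) ^ d := by
        calc (y : ℚ) ^ (d - 2) * (k : ℚ) ^ 2 ≤ (k : ℚ) ^ (d - 2) * (k : ℚ) ^ 2 :=
              mul_le_mul_of_nonneg_right (pow_le_pow_left₀ hy0.le hyk _) (by positivity)
          _ = (k : ℚ) ^ d := by rw [← pow_add, Nat.sub_add_cancel hd]
      have h4 : (1 / (y : ℚ) ^ (d - 2)) * ((k : ℚ) ^ 2)⁻¹ =
          1 / ((y : ℚ) ^ (d - 2) * (k : ℚ) ^ 2) := by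
        rw [one_div, one_div, mul_inv]
      rw [h4]
      exact one_div_le_one_div_of_le (by positivity) h3
    rw [← mul_sum] at h2
    have h5 : (0 : ℚ) ≤ (R : ℚ)⁻¹ := by positivity
    have h6 : ∑ k ∈ Ioc y R, ((k : ℚ) ^ 2)⁻¹ ≤ (y : ℚ)⁻¹ := by linarith
    have h7 : (1 / (y : ℚ) ^ (d - 2)) * ∑ k ∈ Ioc y R, ((k : ℚ) ^ 2)⁻¹ ≤
        (1 / (y : ℚ) ^ (d - 2)) * (y : ℚ)⁻¹ := mul_le_mul_of_nonneg_left h6 (by positivity)
    have h8 : (1 / (y : ℚ) ^ (d - 2)) * (y : ℚ)⁻¹ = 1 / (y : ℚ) ^ (d - 1) := by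
      have : d - 1 = (d - 2) + 1 := by omega
      rw [this, pow_succ, one_div, one_div, mul_inv]
    rw [h8] at h7
    exact h2.trans h7

/-- Union bound over the large primes. -/
lemma exists_good {d y R W M s q : ℕ} (hd : 2 ≤ d) (hy : 1 ≤ y) (J : Finset ℕ)
    (hJ : ∀ j ∈ J, j < s) (hM : ∀ p, p.Prime → y < p → p ≠ q → Nat.Coprime p M)
    (hsize : ∀ t, t < W → s + M * t ≤ R ^ d) (hK : 4 * J.card ≤ y ^ (d - 1))
    (hR : 4 * (J.card * R) < W) :
    ∃ t, t < W ∧ ∀ j ∈ J, ∀ p, p.Prime → y < p → p ≠ q → ¬ p ^ d ∣ s + M * t - j := by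
  classical
  by_contra hcon
  push Not at hcon
  set I := (Ioc y R).filter (fun p => p.Prime ∧ p ≠ q) with hI
  have hcover : range W ⊆ J.biUnion (fun j => I.biUnion (fun p =>
      (range W).filter (fun t => p ^ d ∣ (s - j) + M * t))) := by
    intro t ht
    have htW := mem_range.mp ht
    obtain ⟨j, hj, p, hp, hyp, hpq, hdvd⟩ := hcon t htW
    have hjs := hJ j hj
    have hval : s + M * t - j = (s - j) + M * t := by omega
    rw [hval] at hdvd
    have hpR : p ≤ R := by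
      have h1 : p ^ d ≤ (s - j) + M * t := Nat.le_of_dvd (by omega) hdvd
      have h2 := hsize t htW
      have h3 : p ^ d ≤ R ^ d := by omega
      exact le_of_pow_le_pow_left₀ (by omega) (Nat.zero_le R) h3
    rw [mem_biUnion]
    refine ⟨j, hj, ?_⟩
    rw [mem_biUnion]
    exact ⟨p, mem_filter.mpr ⟨mem_Ioc.mpr ⟨hyp, hpR⟩, hp, hpq⟩, mem_filter.mpr ⟨ht, hdvd⟩⟩
  have hcard := card_le_card hcover
  rw [card_range] at hcard
  have hterm : ∀ j ∈ J, ((I.biUnion (fun p =>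
      (range W).filter (fun t => p ^ d ∣ (s - j) + M * t))).card : ℚ) ≤
      (W : ℚ) * (1 / (y : ℚ) ^ (d - 1)) + R := by
    intro j _
    have h1 : (I.biUnion (fun p => (range W).filter (fun t => p ^ d ∣ (s - j) + M * t))).card ≤
        ∑ p ∈ I, (W / p ^ d + 1) := by
      refine card_biUnion_le.trans (sum_le_sum fun p hp => ?_)
      rw [mem_filter, mem_Ioc] at hp
      exact card_dvd_le (s - j) M (p ^ d) W
        (Nat.Coprime.pow_left d (hM p hp.2.1 hp.1.1 hp.2.2)) (pow_pos hp.2.1.pos d)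
    have h2 : ((∑ p ∈ I, (W / p ^ d + 1) : ℕ) : ℚ) ≤ ∑ p ∈ Ioc y R, ((W : ℚ) * (1 / (p : ℚ) ^ d) + 1)
        := by
      push_cast
      refine (sum_le_sum (g := fun p : ℕ => (W : ℚ) * (1 / (p : ℚ) ^ d) + 1) fun p hp => ?_).trans
        (sum_le_sum_of_subset_of_nonneg (filter_subset _ _) fun p _ _ => by positivity)
      have h3 : ((W / p ^ d : ℕ) : ℚ) ≤ (W : ℚ) / ((p ^ d : ℕ) : ℚ) := Nat.cast_div_le
      push_cast at h3
      rw [mul_one_div]
      linarith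
    have h3 : ∑ p ∈ Ioc y R, ((W : ℚ) * (1 / (p : ℚ) ^ d) + 1) =
        (W : ℚ) * ∑ p ∈ Ioc y R, (1 : ℚ) / (p : ℚ) ^ d + ((R - y : ℕ) : ℚ) := by
      rw [sum_add_distrib, ← mul_sum, sum_const, Nat.card_Ioc, nsmul_eq_mul, mul_one]
    have h4 : (((R - y : ℕ) : ℕ) : ℚ) ≤ R := by exact_mod_cast Nat.sub_le R y
    have h5 := mul_le_mul_of_nonneg_left (sum_inv_pow_le (R := R) hd hy)
      (Nat.cast_nonneg (α := ℚ) W)
    have h6 : ((I.biUnion (fun p =>
      (range W).filter (fun t => p ^ d ∣ (s - j) + M * t))).card : ℚ) ≤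
        ((∑ p ∈ I, (W / p ^ d + 1) : ℕ) : ℚ) := by exact_mod_cast h1
    linarith
  have htotal : (W : ℚ) ≤ J.card * ((W : ℚ) * (1 / (y : ℚ) ^ (d - 1)) + R) := by
    have h1 : (W : ℚ) ≤ ∑ j ∈ J, ((I.biUnion (fun p =>
        (range W).filter (fun t => p ^ d ∣ (s - j) + M * t))).card : ℚ) := by
      have := hcard.trans card_biUnion_le
      exact_mod_cast this
    have h2 := sum_le_sum hterm
    rw [sum_const, nsmul_eq_mul] at h2
    exact h1.trans h2
  have hy0 : (0 : ℚ) < (y : ℚ) ^ (d - 1) := by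
    have : (0 : ℚ) < y := by exact_mod_cast hy
    positivity
  have hKq : 4 * (J.card : ℚ) ≤ (y : ℚ) ^ (d - 1) := by exact_mod_cast hK
  have hRq : 4 * ((J.card : ℚ) * R) < W := by exact_mod_cast hR
  have hW0 : (0 : ℚ) ≤ W := Nat.cast_nonneg W
  have h7 : (J.card : ℚ) * (1 / (y : ℚ) ^ (d - 1)) ≤ 1 / 4 := by
    rw [mul_one_div, div_le_iff₀ hy0]
    linarith
  have h8 : (J.card : ℚ) * ((W : ℚ) * (1 / (y : ℚ) ^ (d - 1)) + R) =
      W * ((J.card : ℚ) * (1 / (y : ℚ) ^ (d - 1))) + J.card * R := by ring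
  have h9 := mul_le_mul_of_nonneg_left h7 hW0
  have hWpos : (0 : ℚ) < W := by
    have : (0 : ℚ) ≤ 4 * ((J.card : ℚ) * R) := by positivity
    linarith
  rw [h8] at htotal
  linarith

/-- A prime power exceeding `y ^ d`. -/
lemma lt_pow_log {p y d : ℕ} (hp : 2 ≤ p) (hpy : p ≤ y) (hd : 1 ≤ d) :
    y ^ d < p ^ (2 * d * Nat.log p y) := by
  have h1 : y < p ^ (Nat.log p y + 1) := Nat.lt_pow_succ_log_self (by omega) y
  have h2 : 1 ≤ Nat.log p y := Nat.log_pos (by omega) hpy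
  have h3 : y < p ^ (2 * Nat.log p y) :=
    lt_of_lt_of_le h1 (Nat.pow_le_pow_right (by omega) (by omega))
  have h4 : p ^ (2 * d * Nat.log p y) = (p ^ (2 * Nat.log p y)) ^ d := by
    rw [← pow_mul]
    congr 1
    ring
  rw [h4]
  exact Nat.pow_lt_pow_left h3 (by omega)

/-- The residue class modulo the small primes. -/
lemma exists_class {d y : ℕ} (hd : 1 ≤ d) (J : Finset ℕ) (hJ : 2 * J.card ≤ y ^ d) :
    ∃ ρ : ℕ, ∀ p, p.Prime → p ≤ y → ¬ p ∣ ρ ∧
      ∀ j ∈ J, ¬ ρ ≡ j [MOD p ^ (2 * d * Nat.log p y)] := by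
  classical
  have hloc : ∀ p, p.Prime → p ≤ y → ∃ r : ℕ, ¬ p ∣ r ∧
      ∀ j ∈ J, ¬ r ≡ j [MOD p ^ (2 * d * Nat.log p y)] := by
    intro p hp hpy
    have hlog : 1 ≤ Nat.log p y := Nat.log_pos hp.one_lt hpy
    set e := 2 * d * Nat.log p y with he
    have he1 : 1 ≤ e := by
      have : 1 * 1 ≤ (2 * d) * Nat.log p y := Nat.mul_le_mul (by omega) hlog
      omega
    have hlt := lt_pow_log hp.two_le hpy hd
    rw [← he] at hlt
    set A := (range (p ^ e)).filter (fun r => (p ^ e).Coprime r) with hA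
    have hAcard : A.card = p ^ (e - 1) * (p - 1) := by
      rw [hA, ← Nat.totient_eq_card_coprime, Nat.totient_prime_pow hp he1]
    have hA2 : p ^ e ≤ 2 * A.card := by
      rw [hAcard]
      have h1 : p ^ e = p ^ (e - 1) * p := by
        rw [← pow_succ]
        congr 1
        omega
      rw [h1]
      have h2 : p ≤ 2 * (p - 1) := by
        have := hp.two_le
        omega
      calc p ^ (e - 1) * p ≤ p ^ (e - 1) * (2 * (p - 1)) := Nat.mul_le_mul_left _ h2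
        _ = 2 * (p ^ (e - 1) * (p - 1)) := by ring
    have hB : (J.image (fun j => j % p ^ e)).card < A.card := by
      have h1 : (J.image (fun j => j % p ^ e)).card ≤ J.card := card_image_le
      omega
    obtain ⟨r, hrA, hrB⟩ := exists_mem_notMem_of_card_lt_card hB
    rw [hA, mem_filter, mem_range] at hrA
    refine ⟨r, ?_, ?_⟩
    · intro hpr
      have h1 : p ∣ p ^ e := dvd_pow_self p (by omega)
      exact Nat.not_coprime_of_dvd_of_dvd hp.one_lt h1 hpr hrA.2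
    · intro j hj hmod
      apply hrB
      rw [mem_image]
      refine ⟨j, hj, ?_⟩
      have h1 : r % p ^ e = j % p ^ e := hmod
      rw [← h1, Nat.mod_eq_of_lt hrA.1]
  choose! r hr using hloc
  have hs : ∀ p ∈ Nat.primesLE y, p ^ (2 * d * Nat.log p y) ≠ 0 := by
    intro p hp
    exact pow_ne_zero _ (Nat.prime_of_mem_primesLE hp).ne_zero
  have pp : Set.Pairwise (Nat.primesLE y : Set ℕ)
      (Function.onFun Nat.Coprime (fun p => p ^ (2 * d * Nat.log p y))) := by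
    intro p hp p' hp' hne
    exact Nat.Coprime.pow _ _ ((Nat.coprime_primes (Nat.prime_of_mem_primesLE hp)
      (Nat.prime_of_mem_primesLE hp')).mpr hne)
  obtain ⟨ρ, hρ⟩ := Nat.chineseRemainderOfFinset r (fun p => p ^ (2 * d * Nat.log p y))
    (Nat.primesLE y) hs pp
  refine ⟨ρ, fun p hp hpy => ?_⟩
  have h1 := hρ p (Nat.mem_primesLE.mpr ⟨hpy, hp⟩)
  have hlog : 1 ≤ Nat.log p y := Nat.log_pos hp.one_lt hpy
  have he1 : 2 * d * Nat.log p y ≠ 0 := by
    have : 1 * 1 ≤ (2 * d) * Nat.log p y := Nat.mul_le_mul (by omega) hlog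
    omega
  refine ⟨?_, ?_⟩
  · intro hpρ
    apply (hr p hp hpy).1
    have h2 : ρ ≡ r p [MOD p] := h1.of_dvd (dvd_pow_self p he1)
    exact (Nat.modEq_zero_iff_dvd).mp (h2.symm.trans ((Nat.modEq_zero_iff_dvd).mpr hpρ))
  · intro j hj hmod
    exact (hr p hp hpy).2 j hj (h1.symm.trans hmod)

/-- A representative of a residue class in `(a, a + M]`. -/
lemma exists_rep (a M ρ : ℕ) (hM : 0 < M) : ∃ s, a < s ∧ s ≤ a + M ∧ s ≡ ρ [MOD M] := by
  refine ⟨a + 1 + (ρ + M * (a + 1) - (a + 1)) % M, by omega, ?_, ?_⟩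
  · have := Nat.mod_lt (ρ + M * (a + 1) - (a + 1)) hM
    omega
  · have h1 : a + 1 ≤ M * (a + 1) := Nat.le_mul_of_pos_left _ hM
    have h2 : a + 1 + (ρ + M * (a + 1) - (a + 1)) % M ≡
        a + 1 + (ρ + M * (a + 1) - (a + 1)) [MOD M] :=
      Nat.ModEq.add_left _ (Nat.mod_modEq _ _)
    have h3 : a + 1 + (ρ + M * (a + 1) - (a + 1)) = ρ + M * (a + 1) := by omega
    rw [h3] at h2
    exact h2.trans (by
      have : ρ + M * (a + 1) ≡ ρ + 0 [MOD M] :=
        Nat.ModEq.add_left ρ ((Nat.modEq_zero_iff_dvd).mpr (dvd_mul_right _ _))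
      exact this)

lemma pow_log_dvd {p y d : ℕ} (hp : p.Prime) :
    p ^ (2 * d * Nat.log p y) ∣ Nat.lcmUpto y ^ (2 * d) := by
  have h1 : p ^ Nat.log p y ∣ Nat.lcmUpto y := by
    rw [← Nat.factorization_lcmUpto y hp]
    exact Nat.ordProj_dvd _ _
  have h2 := pow_dvd_pow_of_dvd h1 (2 * d)
  rw [← pow_mul, mul_comm] at h2
  exact h2

lemma coprime_lcmUpto {q y n : ℕ} (hq : q.Prime) (hyq : y < q) :
    Nat.Coprime q (Nat.lcmUpto y ^ n) := by
  apply Nat.Coprime.pow_right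
  rw [Nat.Prime.coprime_iff_not_dvd hq]
  intro h
  have h1 : q ∈ (Nat.lcmUpto y).primeFactors :=
    Nat.mem_primeFactors.mpr ⟨hq, h, Nat.lcmUpto_ne_zero y⟩
  rw [Nat.primeFactors_lcmUpto, Nat.mem_primesLE] at h1
  omega

/-- No linear relation with few terms on a long interval. -/
theorem no_gap {l d T y R a b q : ℕ} [Fact l.Prime] (hd : 2 ≤ d) (hT : 0 < T) (hTy : T ≤ y)
    (hly : l ≤ y) (J : Finset ℕ) (w : ℕ → ZMod l) (h0 : 0 ∈ J) (hw0 : w 0 ≠ 0)
    (hJa : ∀ j ∈ J, j ≤ a)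
    (hS : ∀ n n' : ℕ, a < n → n ≤ b → a < n' → n' ≤ b → n ≡ n' [MOD T] →
      ∑ j ∈ J, w j * ((sd d (n - j) : ℕ) : ZMod l) = ∑ j ∈ J, w j * ((sd d (n' - j) : ℕ) : ZMod l))
    (hq : q.Prime) (hyq : y < q) (hqJ : ∀ j ∈ J, j ≠ 0 → ¬ q ∣ j)
    (hb : b ≤ R ^ d) (hK : 4 * J.card ≤ y ^ (d - 1))
    (hlen : a + (T * Nat.lcmUpto y ^ (2 * d) * q ^ (d + 1)) * (4 * (J.card * R) + 1) ≤ b) :
    False := by
  classical
  have hl : l.Prime := Fact.out
  have hy1 : 1 ≤ y := by omega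
  set E := Nat.lcmUpto y ^ (2 * d) with hE
  have hEpos : 0 < E := pow_pos (Nat.lcmUpto_pos y) _
  set M := T * E with hM
  have hMpos : 0 < M := Nat.mul_pos hT hEpos
  have hqpos : 0 < q ^ (d + 1) := pow_pos hq.pos _
  have hMcop : ∀ p, p.Prime → y < p → Nat.Coprime p M := by
    intro p hp hyp
    apply Nat.Coprime.mul_right
    · rw [Nat.Prime.coprime_iff_not_dvd hp]
      intro h
      have := Nat.le_of_dvd hT h
      omega
    · exact coprime_lcmUpto hp hyp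
  have hK2 : 2 * J.card ≤ y ^ d := by
    have h1 : y ^ (d - 1) ≤ y ^ d := Nat.pow_le_pow_right hy1 (by omega)
    omega
  obtain ⟨ρ, hρ⟩ := exists_class (show 1 ≤ d by omega) J hK2
  set W := 4 * (J.card * R) + 1 with hW
  -- the first place
  obtain ⟨s1, hs1a, hs1b, hs1⟩ := exists_rep a M ρ hMpos
  have hMW : M * W ≤ M * q ^ (d + 1) * W := by
    calc M * W = M * 1 * W := by ring
      _ ≤ M * q ^ (d + 1) * W := Nat.mul_le_mul_right _ (Nat.mul_le_mul_left _ hqpos)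
  have hbound1 : ∀ t, t < W → s1 + M * t ≤ b := by
    intro t ht
    have h1 : M * (t + 1) ≤ M * W := Nat.mul_le_mul_left _ ht
    have h2 : M * (t + 1) = M * t + M := by ring
    omega
  obtain ⟨t1, ht1, hgood1⟩ := exists_good (q := 1) hd hy1 J (fun j hj => lt_of_le_of_lt (hJa j hj) hs1a)
    (fun p hp hyp _ => hMcop p hp hyp) (fun t ht => (hbound1 t ht).trans hb) hK
    (show 4 * (J.card * R) < W by omega)
  set n1 := s1 + M * t1 with hn1
  have hn1b : n1 ≤ b := hbound1 t1 ht1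
  have hn1a : a < n1 := by omega
  have hn1ρ : n1 ≡ ρ [MOD M] := by
    have h1 : s1 + M * t1 ≡ s1 + 0 [MOD M] :=
      Nat.ModEq.add_left s1 ((Nat.modEq_zero_iff_dvd).mpr (dvd_mul_right _ _))
    exact h1.trans hs1
  -- the second place
  have hcop : Nat.Coprime M (q ^ (d + 1)) := (Nat.Coprime.pow_left (d + 1) (hMcop q hq hyq)).symm
  obtain ⟨ρ2, hρ2a, hρ2b⟩ := Nat.chineseRemainder hcop ρ (q ^ d)
  have hM2pos : 0 < M * q ^ (d + 1) := Nat.mul_pos hMpos hqpos
  obtain ⟨s2, hs2a, hs2b, hs2⟩ := exists_rep a (M * q ^ (d + 1)) ρ2 hM2pos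
  have hbound2 : ∀ t, t < W → s2 + M * q ^ (d + 1) * t ≤ b := by
    intro t ht
    have h1 : M * q ^ (d + 1) * (t + 1) ≤ M * q ^ (d + 1) * W := Nat.mul_le_mul_left _ ht
    have h2 : M * q ^ (d + 1) * (t + 1) = M * q ^ (d + 1) * t + M * q ^ (d + 1) := by ring
    omega
  obtain ⟨t2, ht2, hgood2⟩ := exists_good (q := q) hd hy1 J
    (fun j hj => lt_of_le_of_lt (hJa j hj) hs2a)
    (fun p hp hyp hpq => Nat.Coprime.mul_right (hMcop p hp hyp)
      (Nat.Coprime.pow_right _ ((Nat.coprime_primes hp hq).mpr hpq)))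
    (fun t ht => (hbound2 t ht).trans hb) hK
    (show 4 * (J.card * R) < W by omega)
  set n2 := s2 + M * q ^ (d + 1) * t2 with hn2
  have hn2b : n2 ≤ b := hbound2 t2 ht2
  have hn2a : a < n2 := by omega
  have hn2' : n2 ≡ ρ2 [MOD M * q ^ (d + 1)] := by
    have h1 : s2 + M * q ^ (d + 1) * t2 ≡ s2 + 0 [MOD M * q ^ (d + 1)] :=
      Nat.ModEq.add_left s2 ((Nat.modEq_zero_iff_dvd).mpr (dvd_mul_right _ _))
    exact h1.trans hs2
  have hn2ρ : n2 ≡ ρ [MOD M] := (hn2'.of_dvd (dvd_mul_right _ _)).trans hρ2a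
  have hn2q : n2 ≡ q ^ d [MOD q ^ (d + 1)] := (hn2'.of_dvd (dvd_mul_left _ _)).trans hρ2b
  have hmod : n1 ≡ n2 [MOD M] := hn1ρ.trans hn2ρ.symm
  -- small primes
  have hsmall : ∀ n, n ≡ ρ [MOD M] → ∀ j ∈ J, j ≤ n → ∀ p, p.Prime → p ≤ y →
      ¬ p ^ (2 * d * Nat.log p y) ∣ n - j := by
    intro n hn j hj hjn p hp hpy hdvd
    apply (hρ p hp hpy).2 j hj
    have h1 : n ≡ ρ [MOD p ^ (2 * d * Nat.log p y)] :=
      hn.of_dvd ((pow_log_dvd hp).trans (dvd_mul_left _ _))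
    have h2 : j ≡ n [MOD p ^ (2 * d * Nat.log p y)] := (Nat.modEq_iff_dvd' hjn).mpr hdvd
    exact h1.symm.trans h2.symm
  have hqd : q ^ d ∣ n2 := by
    have h1 : n2 ≡ q ^ d [MOD q ^ d] := hn2q.of_dvd (pow_dvd_pow q (Nat.le_succ d))
    exact (Nat.modEq_zero_iff_dvd).mp (h1.trans ((Nat.modEq_zero_iff_dvd).mpr dvd_rfl))
  have hqd1 : ¬ q ^ (d + 1) ∣ n2 := by
    intro h
    have h1 : q ^ (d + 1) ∣ q ^ d :=
      (Nat.modEq_zero_iff_dvd).mp (hn2q.symm.trans ((Nat.modEq_zero_iff_dvd).mpr h))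
    have h2 := Nat.le_of_dvd (pow_pos hq.pos d) h1
    have h3 : q ^ d < q ^ (d + 1) := Nat.pow_lt_pow_right hq.one_lt (Nat.lt_succ_self d)
    omega
  have hndvd : ∀ n, n ≡ ρ [MOD M] → ∀ p, p.Prime → p ≤ y → ¬ p ∣ n := by
    intro n hn p hp hpy h
    apply (hρ p hp hpy).1
    have hlog : 1 ≤ Nat.log p y := Nat.log_pos hp.one_lt hpy
    have he1 : 2 * d * Nat.log p y ≠ 0 := by
      have : 1 * 1 ≤ (2 * d) * Nat.log p y := Nat.mul_le_mul (by omega) hlog
      omega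
    have h1 : n ≡ ρ [MOD p] :=
      hn.of_dvd ((dvd_pow_self p he1).trans ((pow_log_dvd hp).trans (dvd_mul_left _ _)))
    exact (Nat.modEq_zero_iff_dvd).mp (h1.symm.trans ((Nat.modEq_zero_iff_dvd).mpr h))
  -- the terms other than the one at `0` agree
  have hterm : ∀ j ∈ J, j ≠ 0 → sd d (n1 - j) = sd d (n2 - j) := by
    intro j hj hj0
    have hja := hJa j hj
    apply sd_eq_of_local (y := y) (by omega) (by omega)
    · intro p hp hpy
      refine ⟨2 * d * Nat.log p y, hsmall n1 hn1ρ j hj (by omega) p hp hpy, ?_⟩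
      have h1 : n1 ≡ n2 [MOD p ^ (2 * d * Nat.log p y)] :=
        hmod.of_dvd ((pow_log_dvd hp).trans (dvd_mul_left _ _))
      apply Nat.ModEq.add_right_cancel' j
      have e1 : n1 - j + j = n1 := by omega
      have e2 : n2 - j + j = n2 := by omega
      rw [e1, e2]
      exact h1
    · intro p hp hyp
      exact hgood1 j hj p hp hyp hp.one_lt.ne'
    · intro p hp hyp
      by_cases hpq : p = q
      · subst hpq
        intro h
        apply hqJ j hj hj0
        have h1 : p ∣ n2 - j := (dvd_pow_self p (by omega)).trans h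
        have h2 : p ∣ n2 := (dvd_pow_self p (by omega)).trans hqd
        have h3 := Nat.dvd_sub h2 h1
        have h4 : n2 - (n2 - j) = j := by omega
        rwa [h4] at h3
      · exact hgood2 j hj p hp hyp hpq
  have hone : sd d n1 = 1 := by
    apply sd_eq_one (by omega) (by omega)
    intro p hp h
    rcases Nat.lt_or_ge y p with h1 | h1
    · have h2 := hgood1 0 h0 p hp h1 hp.one_lt.ne'
      rw [Nat.sub_zero] at h2
      exact h2 h
    · exact hndvd n1 hn1ρ p hp h1 ((dvd_pow_self p (by omega)).trans h)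
  have htwo : sd d n2 = 1 + q ^ d := by
    apply sd_eq_one_add (by omega) (by omega) hq hqd hqd1
    intro p hp hpq h
    rcases Nat.lt_or_ge y p with h1 | h1
    · have h2 := hgood2 0 h0 p hp h1 hpq
      rw [Nat.sub_zero] at h2
      exact h2 h
    · exact hndvd n2 hn2ρ p hp h1 ((dvd_pow_self p (by omega)).trans h)
  have hsum := hS n1 n2 hn1a hn1b hn2a hn2b (hmod.of_dvd (dvd_mul_right _ _))
  rw [← Finset.add_sum_erase J _ h0, ← Finset.add_sum_erase J _ h0] at hsum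
  have hrest : ∑ j ∈ J.erase 0, w j * ((sd d (n1 - j) : ℕ) : ZMod l) =
      ∑ j ∈ J.erase 0, w j * ((sd d (n2 - j) : ℕ) : ZMod l) := by
    apply sum_congr rfl
    intro j hj
    rw [mem_erase] at hj
    rw [hterm j hj.2 hj.1]
  rw [hrest] at hsum
  have hkey := add_right_cancel hsum
  rw [Nat.sub_zero, Nat.sub_zero, hone, htwo] at hkey
  have h5 : w 0 * ((q ^ d : ℕ) : ZMod l) = 0 := by
    have h6 : w 0 * ((1 : ℕ) : ZMod l) + w 0 * ((q ^ d : ℕ) : ZMod l) =
        w 0 * ((1 : ℕ) : ZMod l) + 0 := by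
      rw [add_zero, ← mul_add, ← Nat.cast_add]
      exact hkey.symm
    exact add_left_cancel h6
  rcases mul_eq_zero.mp h5 with h7 | h7
  · exact hw0 h7
  · rw [ZMod.natCast_eq_zero_iff] at h7
    have h8 := hl.dvd_of_dvd_pow h7
    have h9 := (Nat.prime_dvd_prime_iff_eq hl hq).mp h8
    omega

end Pool.Agent.Lib.MP_dcbbfc_nt
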