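import Pool.Agent.Lib.MP_dcbbfc_nt.Values

/-! The recurrence `n p_d(n) = ∑ sd(j) p_d(n - j)` for the partitions into `d`-th powers. -/

set_option autoImplicit false

open Finset

namespace Pool.Agent.Lib.MP_dcbbfc_nt

/-- The number of partitions of `n` into `d`-th powers of positive integers. -/
noncomputable def pd (d n : ℕ) : ℕ :=
  Nat.card {p : Nat.Partition n // ∀ i ∈ p.parts, ∃ k : ℕ, k ^ d = i}

open Classical in
/-- The finite set of these partitions. -/
noncomputable def PP (d n : ℕ) : Finset (Nat.Partition n) :=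
  univ.filter (fun p => ∀ i ∈ p.parts, ∃ k : ℕ, k ^ d = i)

lemma mem_PP {d n : ℕ} {p : Nat.Partition n} :
    p ∈ PP d n ↔ ∀ i ∈ p.parts, ∃ k : ℕ, k ^ d = i := by
  unfold PP
  rw [mem_filter]
  exact ⟨fun h => h.2, fun h => ⟨mem_univ _, h⟩⟩

lemma pd_eq (d n : ℕ) : pd d n = (PP d n).card := by
  classical
  unfold pd
  rw [Nat.card_eq_fintype_card, Fintype.card_subtype]
  rfl

lemma mul_count_le {n : ℕ} (p : Nat.Partition n) (i : ℕ) : i * p.parts.count i ≤ n := by
  classical
  have h1 : Multiset.replicate (p.parts.count i) i ≤ p.parts :=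
    Multiset.le_count_iff_replicate_le.mp le_rfl
  obtain ⟨t, ht⟩ := Multiset.le_iff_exists_add.mp h1
  have h2 := congrArg Multiset.sum ht
  rw [Multiset.sum_add, Multiset.sum_replicate, p.parts_sum, smul_eq_mul] at h2
  rw [mul_comm]
  omega

lemma sum_count {n : ℕ} (p : Nat.Partition n) :
    ∑ i ∈ Icc 1 n, ∑ j ∈ Icc 1 n, (if j ≤ p.parts.count i then i else 0) = n := by
  classical
  have h1 : ∀ i ∈ Icc 1 n, ∑ j ∈ Icc 1 n, (if j ≤ p.parts.count i then i else 0) =
      p.parts.count i * i := by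
    intro i hi
    rw [mem_Icc] at hi
    have hc : p.parts.count i ≤ n := by
      have := mul_count_le p i
      exact (Nat.le_mul_of_pos_left _ (by omega)).trans this
    rw [← sum_filter, sum_const, smul_eq_mul]
    congr 1
    have : (Icc 1 n).filter (fun j => j ≤ p.parts.count i) = Icc 1 (p.parts.count i) := by
      ext j
      simp only [mem_filter, mem_Icc]
      omega
    rw [this, Nat.card_Icc]
    omega
  rw [sum_congr rfl h1]
  have h2 : p.parts.toFinset ⊆ Icc 1 n := by
    intro i hi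
    rw [Multiset.mem_toFinset] at hi
    rw [mem_Icc]
    refine ⟨p.parts_pos hi, ?_⟩
    have h3 := mul_count_le p i
    have h4 : 0 < p.parts.count i := Multiset.count_pos.mpr hi
    exact (Nat.le_mul_of_pos_right i h4).trans h3
  have h3 : ∑ i ∈ Icc 1 n, p.parts.count i * i = ∑ i ∈ p.parts.toFinset, p.parts.count i * i := by
    symm
    apply sum_subset h2
    intro i _ hi
    rw [Multiset.mem_toFinset] at hi
    rw [Multiset.count_eq_zero_of_notMem hi, zero_mul]
  rw [h3]
  have h4 := Finset.sum_multiset_count p.parts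
  rw [p.parts_sum] at h4
  simp only [smul_eq_mul] at h4
  exact h4.symm

lemma card_count_ge {d n i j : ℕ} (hi : 1 ≤ i) (hA : ∃ k : ℕ, k ^ d = i) (hij : i * j ≤ n) :
    ((PP d n).filter (fun p => j ≤ p.parts.count i)).card = (PP d (n - i * j)).card := by
  classical
  refine Finset.card_bij'
    (fun p hp => (⟨p.parts - Multiset.replicate j i, fun {a} ha =>
      p.parts_pos (Multiset.mem_of_le (Multiset.sub_le_self _ _) ha), by
        have h1 : Multiset.replicate j i ≤ p.parts :=
          Multiset.le_count_iff_replicate_le.mp (mem_filter.mp hp).2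
        have h2 := congrArg Multiset.sum (Multiset.sub_add_cancel h1)
        rw [Multiset.sum_add, Multiset.sum_replicate, p.parts_sum, smul_eq_mul] at h2
        rw [mul_comm i j]
        omega⟩ : Nat.Partition (n - i * j)))
    (fun q _ => (⟨q.parts + Multiset.replicate j i, fun {a} ha => by
        rcases Multiset.mem_add.mp ha with h | h
        · exact q.parts_pos h
        · rw [Multiset.eq_of_mem_replicate h]
          exact hi, by
        rw [Multiset.sum_add, Multiset.sum_replicate, q.parts_sum, smul_eq_mul, mul_comm j i]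
        omega⟩ : Nat.Partition n)) ?_ ?_ ?_ ?_
  · intro p hp
    rw [mem_PP]
    intro a ha
    exact mem_PP.mp (mem_filter.mp hp).1 a (Multiset.mem_of_le (Multiset.sub_le_self _ _) ha)
  · intro q hq
    rw [mem_filter, mem_PP]
    refine ⟨?_, ?_⟩
    · intro a ha
      rcases Multiset.mem_add.mp ha with h | h
      · exact mem_PP.mp hq a h
      · rw [Multiset.eq_of_mem_replicate h]
        exact hA
    · show j ≤ (q.parts + Multiset.replicate j i).count i
      rw [Multiset.count_add, Multiset.count_replicate_self]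
      omega
  · intro p hp
    apply Nat.Partition.ext
    exact Multiset.sub_add_cancel (Multiset.le_count_iff_replicate_le.mp (mem_filter.mp hp).2)
  · intro q _
    apply Nat.Partition.ext
    exact Multiset.add_sub_cancel_right

lemma card_count_zero {d n i j : ℕ} (hj : 1 ≤ j)
    (h : ¬ ((∃ k : ℕ, k ^ d = i) ∧ i * j ≤ n)) :
    ((PP d n).filter (fun p => j ≤ p.parts.count i)).card = 0 := by
  classical
  rw [card_eq_zero, filter_eq_empty_iff]
  intro p hp hc
  apply h
  refine ⟨mem_PP.mp hp i (Multiset.count_pos.mp (by omega)), ?_⟩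
  exact (Nat.mul_le_mul_left i hc).trans (mul_count_le p i)

lemma sum_multiples {n i : ℕ} (hi : 1 ≤ i) (F : ℕ → ℕ) :
    ∑ j ∈ Icc 1 n, (if i * j ≤ n then F (i * j) else 0) =
      ∑ m ∈ Icc 1 n, (if i ∣ m then F m else 0) := by
  classical
  rw [← sum_filter, ← sum_filter]
  refine Finset.sum_bij (fun j _ => i * j) ?_ ?_ ?_ ?_
  · intro j hj
    rw [mem_filter, mem_Icc] at hj ⊢
    refine ⟨⟨?_, hj.2⟩, dvd_mul_right i j⟩
    exact Nat.mul_pos hi hj.1.1
  · intro j _ j' _ h
    exact Nat.eq_of_mul_eq_mul_left hi h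
  · intro m hm
    rw [mem_filter, mem_Icc] at hm
    obtain ⟨⟨h1, h2⟩, j, rfl⟩ := hm
    refine ⟨j, ?_, rfl⟩
    rw [mem_filter, mem_Icc]
    have hj : 0 < j := by
      rcases Nat.eq_zero_or_pos j with h | h
      · rw [h, mul_zero] at h1
        omega
      · exact h
    exact ⟨⟨hj, (Nat.le_mul_of_pos_left j hi).trans h2⟩, h2⟩
  · intro j _
    rfl

/-- The recurrence obtained by counting the parts. -/
theorem recurrence (d n : ℕ) :
    n * pd d n = ∑ m ∈ Icc 1 n, sd d m * pd d (n - m) := by
  classical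
  have h1 : n * pd d n = ∑ p ∈ PP d n, ∑ i ∈ Icc 1 n, ∑ j ∈ Icc 1 n,
      (if j ≤ p.parts.count i then i else 0) := by
    rw [sum_congr rfl fun p _ => sum_count p, sum_const, smul_eq_mul, pd_eq, mul_comm]
  rw [h1, sum_comm]
  have h2 : ∀ i ∈ Icc 1 n, ∑ p ∈ PP d n, ∑ j ∈ Icc 1 n, (if j ≤ p.parts.count i then i else 0) =
      ∑ m ∈ Icc 1 n, (if i ∣ m then (if ∃ k : ℕ, k ^ d = i then i * pd d (n - m) else 0) else 0)
      := by
    intro i hi
    rw [mem_Icc] at hi
    rw [sum_comm]
    rw [← sum_multiples hi.1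
      (fun m => if ∃ k : ℕ, k ^ d = i then i * pd d (n - m) else 0)]
    apply sum_congr rfl
    intro j hj
    rw [mem_Icc] at hj
    rw [← sum_filter, sum_const, smul_eq_mul]
    by_cases hc : (∃ k : ℕ, k ^ d = i) ∧ i * j ≤ n
    · rw [card_count_ge hi.1 hc.1 hc.2, if_pos hc.2, if_pos hc.1, pd_eq, mul_comm]
    · rw [card_count_zero hj.1 hc, zero_mul]
      by_cases h3 : i * j ≤ n
      · rw [if_pos h3, if_neg fun h4 => hc ⟨h4, h3⟩]
      · rw [if_neg h3]
  rw [sum_congr rfl h2, sum_comm]
  apply sum_congr rfl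
  intro m hm
  rw [mem_Icc] at hm
  rw [sd_eq, sum_mul, sum_filter]
  have h3 : m.divisors = (Icc 1 n).filter (fun i => i ∣ m) := by
    ext i
    rw [Nat.mem_divisors, mem_filter, mem_Icc]
    constructor
    · rintro ⟨h4, h5⟩
      exact ⟨⟨Nat.pos_of_dvd_of_pos h4 (by omega), (Nat.le_of_dvd (by omega) h4).trans hm.2⟩, h4⟩
    · rintro ⟨_, h4⟩
      exact ⟨h4, by omega⟩
  rw [h3, sum_filter]

lemma sd_zero (d : ℕ) : sd d 0 = 0 := by
  classical
  rw [sd_eq, Nat.divisors_zero]
  simp

lemma pd_zero (d : ℕ) : pd d 0 = 1 := by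
  classical
  rw [pd_eq, card_eq_one]
  refine ⟨default, ?_⟩
  ext p
  rw [mem_PP, mem_singleton]
  constructor
  · intro _
    exact Subsingleton.elim _ _
  · intro _ i hi
    have h1 := mul_count_le p i
    have h2 := Multiset.count_pos.mpr hi
    have h3 := p.parts_pos hi
    have h4 := Nat.mul_pos h3 h2
    omega

/-- The recurrence over an antidiagonal. -/
theorem recurrence' (d n : ℕ) :
    n * pd d n = ∑ x ∈ HasAntidiagonal.antidiagonal n, sd d x.1 * pd d x.2 := by
  rw [recurrence, Finset.Nat.sum_antidiagonal_eq_sum_range_succ (fun i j => sd d i * pd d j),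
    Finset.sum_range_succ', sd_zero, zero_mul, add_zero]
  refine Finset.sum_bij (fun m _ => m - 1) ?_ ?_ ?_ ?_
  · intro m hm
    rw [mem_Icc] at hm
    rw [mem_range]
    omega
  · intro m hm m' hm' h
    rw [mem_Icc] at hm hm'
    omega
  · intro m hm
    rw [mem_range] at hm
    refine ⟨m + 1, ?_, ?_⟩
    · rw [mem_Icc]
      omega
    · omega
  · intro m hm
    rw [mem_Icc] at hm
    have : m - 1 + 1 = m := by omega
    rw [this]

end Pool.Agent.Lib.MP_dcbbfc_nt
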