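import Pool.Agent.Lib.MP_dcbbfc_nt.Algebraic
import Pool.Agent.Lib.MP_dcbbfc_nt.LogDer

/-! Multiplicative independence of the generating functions modulo algebraic power series. -/

set_option autoImplicit false

open scoped PowerSeries LaurentSeries Polynomial RatFunc
open Finset

namespace Pool.Agent.Lib.MP_dcbbfc_nt

noncomputable section

variable {l : ℕ} [Fact l.Prime]

variable (l) in
/-- The generating function of the partitions into `d`-th powers modulo `l`. -/
def GG (d : ℕ) : (ZMod l)⟦X⟧ := PowerSeries.mk fun n => ((pd d n : ℕ) : ZMod l)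

variable (l) in
/-- Its logarithmic derivative. -/
def CC (d : ℕ) : (ZMod l)⟦X⟧ := PowerSeries.mk fun n => ((sd d n : ℕ) : ZMod l)

lemma coeff_CC (d n : ℕ) : PowerSeries.coeff n (CC l d) = ((sd d n : ℕ) : ZMod l) := by
  rw [CC, PowerSeries.coeff_mk]

lemma theta_GG (d : ℕ) : theta (GG l d) = CC l d * GG l d := by
  ext n
  rw [theta, PowerSeries.coeff_mk, PowerSeries.coeff_mul, GG, CC, PowerSeries.coeff_mk]
  simp only [PowerSeries.coeff_mk]
  have h := recurrence' d n
  have h2 := congrArg (fun t : ℕ => (t : ZMod l)) h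
  simp only [Nat.cast_sum, Nat.cast_mul] at h2
  exact h2

lemma constCoeff_GG (d : ℕ) : PowerSeries.constantCoeff (GG l d) = 1 := by
  rw [← PowerSeries.coeff_zero_eq_constantCoeff_apply, GG, PowerSeries.coeff_mk, pd_zero,
    Nat.cast_one]

lemma GG_ne_zero (d : ℕ) : GG l d ≠ 0 := by
  intro h
  have h1 := constCoeff_GG (l := l) d
  rw [h, map_zero] at h1
  exact zero_ne_one h1

/-- `theta` is a derivation. -/
lemma theta_mul (f g : (ZMod l)⟦X⟧) : theta (f * g) = theta f * g + f * theta g := by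
  ext n
  rw [theta, PowerSeries.coeff_mk, map_add, PowerSeries.coeff_mul, PowerSeries.coeff_mul,
    PowerSeries.coeff_mul, ← Finset.sum_add_distrib, Finset.mul_sum]
  apply Finset.sum_congr rfl
  rintro ⟨i, j⟩ hij
  rw [HasAntidiagonal.mem_antidiagonal] at hij
  simp only at hij ⊢
  rw [theta, theta, PowerSeries.coeff_mk, PowerSeries.coeff_mk, ← hij]
  push_cast
  ring

lemma theta_one : theta (1 : (ZMod l)⟦X⟧) = 0 := by
  ext n
  rw [theta, PowerSeries.coeff_mk, PowerSeries.coeff_one]
  split_ifs with h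
  · rw [h]; simp
  · simp

lemma theta_pow_of {g c : (ZMod l)⟦X⟧} (h : theta g = c * g) (k : ℕ) :
    theta (g ^ k) = ((k : (ZMod l)⟦X⟧) * c) * g ^ k := by
  induction k with
  | zero => rw [pow_zero, theta_one]; simp
  | succ k ih =>
    rw [pow_succ, theta_mul, ih, h]
    push_cast
    ring

lemma theta_prod_of {s : Finset ℕ} {g c : ℕ → (ZMod l)⟦X⟧} (h : ∀ d ∈ s, theta (g d) = c d * g d) :
    theta (∏ d ∈ s, g d) = (∑ d ∈ s, c d) * ∏ d ∈ s, g d := by
  classical
  induction s using Finset.induction_on with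
  | empty => rw [prod_empty, theta_one]; simp
  | insert a s ha ih =>
    rw [prod_insert ha, sum_insert ha, theta_mul, h a (mem_insert_self a s),
      ih fun d hd => h d (mem_insert_of_mem hd)]
    ring

/-- Core: if `F * ∏ G^v = ∏ G^u` with `F` algebraic then `u = v` modulo `l`. -/
lemma core (s : Finset ℕ) (hs : ∀ d ∈ s, 2 ≤ d) (u v : ℕ → ℕ) (F : (ZMod l)⟦X⟧) (hF : Alg F)
    (h : F * ∏ d ∈ s, GG l d ^ v d = ∏ d ∈ s, GG l d ^ u d) :
    ∀ d ∈ s, ((u d : ℕ) : ZMod l) = ((v d : ℕ) : ZMod l) := by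
  classical
  by_contra hcon
  push Not at hcon
  have hl : l.Prime := Fact.out
  -- the first place of difference
  have hne : (s.filter (fun d => ((u d : ℕ) : ZMod l) ≠ ((v d : ℕ) : ZMod l))).Nonempty := by
    obtain ⟨d, hd, h1⟩ := hcon
    exact ⟨d, mem_filter.mpr ⟨hd, h1⟩⟩
  set d0 := (s.filter (fun d => ((u d : ℕ) : ZMod l) ≠ ((v d : ℕ) : ZMod l))).min' hne with hd0
  have hmem := Finset.min'_mem _ hne
  rw [← hd0, mem_filter] at hmem
  have hmin : ∀ e ∈ s, e < d0 → ((u e : ℕ) : ZMod l) - ((v e : ℕ) : ZMod l) = 0 := by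
    intro e he hlt
    by_contra hx
    have h1 : e ∈ s.filter (fun d => ((u d : ℕ) : ZMod l) ≠ ((v d : ℕ) : ZMod l)) :=
      mem_filter.mpr ⟨he, fun h2 => hx (by rw [h2, sub_self])⟩
    have := Finset.min'_le _ e h1
    omega
  -- logarithmic derivative
  set P := ∏ d ∈ s, GG l d ^ v d with hP
  set Q := ∏ d ∈ s, GG l d ^ u d with hQ
  have hPne : P ≠ 0 := Finset.prod_ne_zero_iff.mpr fun d _ => pow_ne_zero _ (GG_ne_zero d)
  have hQne : Q ≠ 0 := Finset.prod_ne_zero_iff.mpr fun d _ => pow_ne_zero _ (GG_ne_zero d)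
  have hFne : F ≠ 0 := by
    rintro rfl
    rw [zero_mul] at h
    exact hQne h.symm
  have hthP : theta P = (∑ d ∈ s, ((v d : (ZMod l)⟦X⟧) * CC l d)) * P :=
    theta_prod_of fun d _ => theta_pow_of (theta_GG d) (v d)
  have hthQ : theta Q = (∑ d ∈ s, ((u d : (ZMod l)⟦X⟧) * CC l d)) * Q :=
    theta_prod_of fun d _ => theta_pow_of (theta_GG d) (u d)
  set W := ∑ d ∈ s, ((u d : (ZMod l)⟦X⟧) - (v d : (ZMod l)⟦X⟧)) * CC l d with hW
  have hkey : theta F = F * W := by
    have h1 := congrArg theta h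
    rw [theta_mul, hthP, hthQ, ← h] at h1
    have h2 : theta F * P = F * W * P := by
      have h3 : W = ∑ d ∈ s, ((u d : (ZMod l)⟦X⟧) * CC l d) -
          ∑ d ∈ s, ((v d : (ZMod l)⟦X⟧) * CC l d) := by
        rw [hW, ← Finset.sum_sub_distrib]
        apply Finset.sum_congr rfl
        intro d _
        ring
      rw [h3]
      linear_combination h1
    exact mul_right_cancel₀ hPne h2
  have hWalg : Alg W := by
    apply Alg.of_mul hF hFne
    rw [← hkey]
    exact hF.theta
  have hfin := hWalg.kernel_finite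
  -- the coefficients of `W`
  set c : ℕ → ZMod l := fun e => ((u e : ℕ) : ZMod l) - ((v e : ℕ) : ZMod l) with hc
  have hcoeff : ∀ n, PowerSeries.coeff n W = ∑ e ∈ s, c e * ((sd e n : ℕ) : ZMod l) := by
    intro n
    rw [hW, map_sum]
    apply Finset.sum_congr rfl
    intro e _
    have h1 : (u e : (ZMod l)⟦X⟧) - (v e : (ZMod l)⟦X⟧) = PowerSeries.C (c e) := by
      rw [hc]
      simp only
      rw [map_sub, map_natCast, map_natCast]
    rw [h1, PowerSeries.coeff_C_mul, coeff_CC]
  apply Set.infinite_of_injective_forall_mem (s := _)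
    (f := fun a : ℕ => fun n => PowerSeries.coeff (l ^ (a + 1) * n + 1) W) ?_ ?_ hfin
  · intro a a' haa
    by_contra hne2
    have hpair : ∀ x y : ℕ, x < y →
        (fun n => PowerSeries.coeff (l ^ (x + 1) * n + 1) W) ≠
        (fun n => PowerSeries.coeff (l ^ (y + 1) * n + 1) W) := by
      intro x y hxy heq
      obtain ⟨n, hn⟩ := kernel_inj hl s hs hmem.1 c (sub_ne_zero.mpr hmem.2) hmin
        (show 1 ≤ x + 1 by omega) (show x + 1 < y + 1 by omega)
      apply hn
      have h1 := congrFun heq n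
      simp only [hcoeff] at h1
      exact h1
    rcases Nat.lt_or_gt_of_ne hne2 with h1 | h1
    · exact hpair a a' h1 haa
    · exact hpair a' a h1 haa.symm
  · intro a
    exact ⟨a + 1, 1, Nat.one_lt_pow (by omega) hl.one_lt, rfl⟩

lemma constCoeff_prod (s : Finset ℕ) (u : ℕ → ℕ) :
    PowerSeries.constantCoeff (∏ d ∈ s, GG l d ^ u d) = 1 := by
  rw [map_prod]
  apply Finset.prod_eq_one
  intro d _
  rw [map_pow, constCoeff_GG, one_pow]

/-- If `F * ∏ G^v = ∏ G^u` with `F` algebraic then `u = v`. -/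
lemma descent (s : Finset ℕ) (hs : ∀ d ∈ s, 2 ≤ d) (N : ℕ) :
    ∀ (u v : ℕ → ℕ) (F : (ZMod l)⟦X⟧), Alg F →
      F * ∏ d ∈ s, GG l d ^ v d = ∏ d ∈ s, GG l d ^ u d →
      ∑ d ∈ s, ((u d - v d) + (v d - u d)) ≤ N → ∀ d ∈ s, u d = v d := by
  classical
  have hl : l.Prime := Fact.out
  induction N using Nat.strong_induction_on with
  | _ N ih =>
    intro u v F hF h hN
    by_cases h0 : ∑ d ∈ s, ((u d - v d) + (v d - u d)) = 0
    · intro d hd
      have := (Finset.sum_eq_zero_iff.mp h0) d hd
      omega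
    have hcong := core s hs u v F hF h
    -- divide by the common part
    have hdvd : ∀ d ∈ s, l ∣ u d - v d ∧ l ∣ v d - u d := by
      intro d hd
      have h1 := hcong d hd
      rw [ZMod.natCast_eq_natCast_iff] at h1
      constructor
      · rcases Nat.le_total (u d) (v d) with h2 | h2
        · rw [Nat.sub_eq_zero_of_le h2]; exact dvd_zero l
        · exact (Nat.modEq_iff_dvd' h2).mp h1.symm
      · rcases Nat.le_total (v d) (u d) with h2 | h2
        · rw [Nat.sub_eq_zero_of_le h2]; exact dvd_zero l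
        · exact (Nat.modEq_iff_dvd' h2).mp h1
    set a : ℕ → ℕ := fun d => (u d - v d) / l with ha
    set b : ℕ → ℕ := fun d => (v d - u d) / l with hb
    have hau : ∀ d ∈ s, l * a d = u d - v d := fun d hd => Nat.mul_div_cancel' (hdvd d hd).1
    have hbv : ∀ d ∈ s, l * b d = v d - u d := fun d hd => Nat.mul_div_cancel' (hdvd d hd).2
    set w : ℕ → ℕ := fun d => min (u d) (v d) with hw
    have hPu : ∏ d ∈ s, GG l d ^ u d = (∏ d ∈ s, GG l d ^ a d) ^ l * ∏ d ∈ s, GG l d ^ w d := by
      rw [← Finset.prod_pow, ← Finset.prod_mul_distrib]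
      apply Finset.prod_congr rfl
      intro d hd
      rw [← pow_mul, ← pow_add]
      congr 1
      have h1 := hau d hd
      rw [mul_comm (a d) l, h1, hw]
      simp only
      omega
    have hPv : ∏ d ∈ s, GG l d ^ v d = (∏ d ∈ s, GG l d ^ b d) ^ l * ∏ d ∈ s, GG l d ^ w d := by
      rw [← Finset.prod_pow, ← Finset.prod_mul_distrib]
      apply Finset.prod_congr rfl
      intro d hd
      rw [← pow_mul, ← pow_add]
      congr 1
      have h1 := hbv d hd
      rw [mul_comm (b d) l, h1, hw]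
      simp only
      omega
    have hwne : ∏ d ∈ s, GG l d ^ w d ≠ 0 :=
      Finset.prod_ne_zero_iff.mpr fun d _ => pow_ne_zero _ (GG_ne_zero d)
    set A := ∏ d ∈ s, GG l d ^ a d with hA
    set B := ∏ d ∈ s, GG l d ^ b d with hB
    have hBne : B ≠ 0 := Finset.prod_ne_zero_iff.mpr fun d _ => pow_ne_zero _ (GG_ne_zero d)
    have h2 : F * B ^ l = A ^ l := by
      rw [hPu, hPv, ← mul_assoc] at h
      exact mul_right_cancel₀ hwne h
    set F' := A * B⁻¹ with hF'
    have hBinv : B⁻¹ * B = 1 := by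
      apply PowerSeries.inv_mul_cancel
      rw [hB, constCoeff_prod]
      exact one_ne_zero
    have hF'B : F' * B = A := by
      rw [hF', mul_assoc, hBinv, mul_one]
    have hF'l : F' ^ l = F := by
      have h3 : F' ^ l * B ^ l = F * B ^ l := by
        rw [← mul_pow, hF'B, h2]
      exact mul_right_cancel₀ (pow_ne_zero l hBne) h3
    have hF'alg : Alg F' := by
      have h4 : IsAlgebraic (RatFunc (ZMod l)) (((F' : (ZMod l)⟦X⟧) : (ZMod l)⸨X⸩) ^ l) := by
        rw [← map_pow, hF'l]
        exact hF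
      exact (isAlgebraic_iff_isIntegral.mpr
        (IsIntegral.of_pow hl.pos (isAlgebraic_iff_isIntegral.mp h4)))
    have hsum : ∑ d ∈ s, ((u d - v d) + (v d - u d)) = l * ∑ d ∈ s, ((a d - b d) + (b d - a d)) := by
      rw [Finset.mul_sum]
      apply Finset.sum_congr rfl
      intro d hd
      have h5 := hau d hd
      have h6 := hbv d hd
      rcases Nat.le_total (u d) (v d) with h7 | h7
      · have h8 : u d - v d = 0 := Nat.sub_eq_zero_of_le h7
        have h9 : a d = 0 := by
          rw [h8] at h5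
          rcases Nat.mul_eq_zero.mp h5 with h | h
          · exact absurd h hl.ne_zero
          · exact h
        rw [h8, h9, ← h6]
        simp
      · have h8 : v d - u d = 0 := Nat.sub_eq_zero_of_le h7
        have h9 : b d = 0 := by
          rw [h8] at h6
          rcases Nat.mul_eq_zero.mp h6 with h | h
          · exact absurd h hl.ne_zero
          · exact h
        rw [h8, h9, ← h5]
        simp
    set M := ∑ d ∈ s, ((a d - b d) + (b d - a d)) with hM
    have hMpos : 0 < M := by
      rcases Nat.eq_zero_or_pos M with h | h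
      · rw [h, mul_zero] at hsum
        exact absurd hsum h0
      · exact h
    have hlt : M < N := by
      have h10 : M < l * M := by
        have := hl.two_le
        nlinarith
      omega
    have hab := ih M hlt a b F' hF'alg hF'B le_rfl
    intro d hd
    have h5 := hau d hd
    have h6 := hbv d hd
    have h7 := hab d hd
    rw [h7] at h5
    omega

/-- The generating functions modulo `l` are multiplicatively independent modulo algebraic
functions: a nontrivial product of integral powers is transcendental. -/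
theorem prod_transcendental (s : Finset ℕ) (hs : ∀ d ∈ s, 2 ≤ d) (e : ℕ → ℤ)
    (he : ∃ d ∈ s, e d ≠ 0) :
    Transcendental (RatFunc (ZMod l))
      (∏ d ∈ s, (((GG l d : (ZMod l)⟦X⟧) : (ZMod l)⸨X⸩)) ^ e d) := by
  classical
  intro halg
  obtain ⟨d, hd, hne⟩ := he
  apply hne
  set u : ℕ → ℕ := fun d => (e d).toNat with hu
  set v : ℕ → ℕ := fun d => (-(e d)).toNat with hv
  set A := ∏ d ∈ s, GG l d ^ u d with hA
  set B := ∏ d ∈ s, GG l d ^ v d with hB
  have hBinv : B⁻¹ * B = 1 := by
    apply PowerSeries.inv_mul_cancel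
    rw [hB, constCoeff_prod]
    exact one_ne_zero
  have hFB : (A * B⁻¹) * B = A := by rw [mul_assoc, hBinv, mul_one]
  have hBne : B ≠ 0 := Finset.prod_ne_zero_iff.mpr fun d _ => pow_ne_zero _ (GG_ne_zero d)
  have hcoe0 : ∀ f : (ZMod l)⟦X⟧, f ≠ 0 → ((f : (ZMod l)⟦X⟧) : (ZMod l)⸨X⸩) ≠ 0 := by
    intro f hf h0
    apply hf
    apply HahnSeries.ofPowerSeries_injective (Γ := ℤ) (R := ZMod l)
    rw [map_zero]
    exact h0
  have hval : (((A * B⁻¹ : (ZMod l)⟦X⟧) : (ZMod l)⸨X⸩)) =
      ∏ d ∈ s, (((GG l d : (ZMod l)⟦X⟧) : (ZMod l)⸨X⸩)) ^ e d := by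
    apply mul_right_cancel₀ (hcoe0 B hBne)
    rw [← map_mul, hFB, hA, hB, map_prod, map_prod, ← Finset.prod_mul_distrib]
    apply Finset.prod_congr rfl
    intro i _
    rw [map_pow, map_pow, ← zpow_natCast, ← zpow_natCast, ← zpow_add₀ (hcoe0 _ (GG_ne_zero i))]
    congr 1
    rw [hu, hv]
    simp only
    omega
  have hAlg : Alg (A * B⁻¹) := by
    rw [Alg, hval]
    exact halg
  have h := descent s hs _ u v (A * B⁻¹) hAlg hFB le_rfl d hd
  rw [hu, hv] at h
  simp only at h
  omega

end

end Pool.Agent.Lib.MP_dcbbfc_nt
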