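import Pool.Agent.Lib.MP_dcbbfc_nt.Main
import Pool.Agent.Lib.MP_dcbbfc_nt.Gap

/-! The linear relation on a gap of `p_d(n) - p_d(n - T)` modulo `l`. -/

set_option autoImplicit false

open scoped PowerSeries
open Finset

namespace Pool.Agent.Lib.MP_dcbbfc_nt

noncomputable section

variable {l : ℕ} [Fact l.Prime]

variable (l) in
/-- `p_d(n) - p_d(n - T)` modulo `l`. -/
def hh (d T n : ℕ) : ZMod l :=
  ((pd d n : ℕ) : ZMod l) - if T ≤ n then ((pd d (n - T) : ℕ) : ZMod l) else 0

lemma coeff_HHs (d T n : ℕ) :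
    PowerSeries.coeff n ((1 - PowerSeries.X ^ T) * GG l d) = hh l d T n := by
  rw [sub_mul, one_mul, map_sub, PowerSeries.coeff_X_pow_mul', GG, PowerSeries.coeff_mk, hh]
  split_ifs with h
  · rw [PowerSeries.coeff_mk]
  · rfl

lemma theta_one_sub (T : ℕ) : theta ((1 : (ZMod l)⟦X⟧) - PowerSeries.X ^ T) =
    - ((T : (ZMod l)⟦X⟧) * PowerSeries.X ^ T) := by
  ext n
  rw [theta, PowerSeries.coeff_mk, map_sub, map_neg, PowerSeries.coeff_one,
    PowerSeries.coeff_X_pow]
  have h1 : ((T : (ZMod l)⟦X⟧)) = PowerSeries.C (T : ZMod l) := by rw [map_natCast]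
  rw [h1, PowerSeries.coeff_C_mul, PowerSeries.coeff_X_pow]
  by_cases hn : n = 0
  · subst hn
    by_cases hT : 0 = T
    · subst hT
      simp
    · simp [hT]
  · rw [if_neg hn]
    by_cases hT : n = T
    · subst hT
      simp
    · simp [hT]

lemma relation (d T n : ℕ) :
    (n : ZMod l) * hh l d T n =
      (∑ j ∈ range (n + 1), hh l d T j * ((sd d (n - j) : ℕ) : ZMod l)) -
        (T : ZMod l) * if T ≤ n then ((pd d (n - T) : ℕ) : ZMod l) else 0 := by
  have h1 : theta (((1 : (ZMod l)⟦X⟧) - PowerSeries.X ^ T) * GG l d) =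
      CC l d * (((1 : (ZMod l)⟦X⟧) - PowerSeries.X ^ T) * GG l d) -
        (T : (ZMod l)⟦X⟧) * (PowerSeries.X ^ T * GG l d) := by
    rw [theta_mul, theta_one_sub, theta_GG]
    ring
  have h2 := congrArg (PowerSeries.coeff n) h1
  rw [theta, PowerSeries.coeff_mk, coeff_HHs, map_sub, PowerSeries.coeff_mul] at h2
  have h3 : ((T : (ZMod l)⟦X⟧)) = PowerSeries.C (T : ZMod l) := by rw [map_natCast]
  rw [h3, PowerSeries.coeff_C_mul, PowerSeries.coeff_X_pow_mul'] at h2
  rw [h2]
  congr 1
  · rw [Finset.Nat.sum_antidiagonal_eq_sum_range_succ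
      (fun i j => PowerSeries.coeff i (CC l d) * PowerSeries.coeff j
        (((1 : (ZMod l)⟦X⟧) - PowerSeries.X ^ T) * GG l d)), ← Finset.sum_range_reflect]
    apply Finset.sum_congr rfl
    intro j hj
    rw [mem_range] at hj
    have e1 : n + 1 - 1 - j = n - j := by omega
    have e2 : n - (n - j) = j := by omega
    simp only [e1, e2]
    rw [coeff_CC, coeff_HHs, mul_comm]
  · congr 1
    split_ifs
    · rw [GG, PowerSeries.coeff_mk]
    · rfl

lemma hh_zero (d : ℕ) {T : ℕ} (hT : 0 < T) : hh l d T 0 = 1 := by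
  rw [hh, if_neg (by omega), pd_zero, sub_zero, Nat.cast_one]

/-- The relation on a gap. -/
theorem gap_relation {d T a b : ℕ} (hTa : T ≤ a)
    (hgap : ∀ n, a < n → n ≤ b → hh l d T n = 0) :
    ∀ n n' : ℕ, a < n → n ≤ b → a < n' → n' ≤ b → n ≡ n' [MOD T] →
      ∑ j ∈ (range (a + 1)).filter (fun j => hh l d T j ≠ 0),
        hh l d T j * ((sd d (n - j) : ℕ) : ZMod l) =
      ∑ j ∈ (range (a + 1)).filter (fun j => hh l d T j ≠ 0),
        hh l d T j * ((sd d (n' - j) : ℕ) : ZMod l) := by
  classical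
  -- value of the sum
  have hval : ∀ n, a < n → n ≤ b →
      ∑ j ∈ (range (a + 1)).filter (fun j => hh l d T j ≠ 0),
        hh l d T j * ((sd d (n - j) : ℕ) : ZMod l) = (T : ZMod l) * ((pd d (n - T) : ℕ) : ZMod l)
      := by
    intro n hn hnb
    have h1 := relation (l := l) d T n
    rw [hgap n hn hnb, mul_zero, if_pos (by omega)] at h1
    have h2 := (sub_eq_zero.mp h1.symm)
    rw [← h2]
    apply Finset.sum_subset
    · intro j hj
      rw [mem_filter, mem_range] at hj
      rw [mem_range]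
      omega
    · intro j hj hj'
      rw [mem_range] at hj
      rw [mem_filter, mem_range, not_and] at hj'
      by_cases hja : j < a + 1
      · have h3 := hj' hja
        rw [not_not] at h3
        rw [h3, zero_mul]
      · rw [hgap j (by omega) (by omega), zero_mul]
  -- constancy along the progression
  have hconst : ∀ n, a < n → ∀ i, n + T * i ≤ b →
      ((pd d (n + T * i - T) : ℕ) : ZMod l) = ((pd d (n - T) : ℕ) : ZMod l) := by
    intro n hn i
    induction i with
    | zero => intro _; rw [mul_zero, add_zero]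
    | succ i ih =>
      intro hb
      have e : n + T * (i + 1) - T = n + T * i := by
        have : T * (i + 1) = T * i + T := by ring
        omega
      rw [e]
      have hle : T * i ≤ T * (i + 1) := Nat.mul_le_mul_left _ (Nat.le_succ i)
      have h1 := hgap (n + T * i) (by omega) (by omega)
      rw [hh, if_pos (by omega), sub_eq_zero] at h1
      rw [h1]
      exact ih (by omega)
  have hwlog : ∀ n n' : ℕ, n ≤ n' → a < n → n' ≤ b → n ≡ n' [MOD T] →
      ((pd d (n - T) : ℕ) : ZMod l) = ((pd d (n' - T) : ℕ) : ZMod l) := by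
    intro n n' hle hn hb hmod
    obtain ⟨i, hi⟩ := (Nat.modEq_iff_dvd' hle).mp hmod
    have h1 : n' = n + T * i := by omega
    rw [h1]
    exact (hconst n hn i (by omega)).symm
  intro n n' hn hnb hn' hn'b hmod
  rw [hval n hn hnb, hval n' hn' hn'b]
  congr 1
  rcases Nat.le_total n n' with h | h
  · exact hwlog n n' h hn hn'b hmod
  · exact (hwlog n' n h hn' hnb hmod.symm).symm

end

end Pool.Agent.Lib.MP_dcbbfc_nt
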