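import Mathlib

/-! Two linear forms take squarefree values simultaneously (union bound), and the values of the
function `n ↦ ∑_{k^d ∣ n} k^d` at such places. -/

set_option autoImplicit false

open Finset

namespace Pool.Agent.Lib.MP_dcbbfc_nt

lemma card_sq_dvd_le (a0 a1 m T : ℕ) (hco : Nat.Coprime a0 a1) (hm : 0 < m) :
    ((range T).filter (fun t => m ^ 2 ∣ a0 + a1 * t)).card ≤ T / m ^ 2 + 1 := by
  classical
  have hm2 : 0 < m ^ 2 := pow_pos hm 2
  rcases ((range T).filter (fun t => m ^ 2 ∣ a0 + a1 * t)).eq_empty_or_nonempty with h | ⟨t0, ht0⟩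
  · rw [h, card_empty]
    exact Nat.zero_le _
  rw [mem_filter] at ht0
  have hcop : Nat.Coprime (m ^ 2) a1 := by
    apply Nat.Coprime.pow_left
    rw [Nat.coprime_iff_gcd_eq_one]
    by_contra hne
    obtain ⟨q, hq, hqd⟩ := Nat.exists_prime_and_dvd hne
    have h1 : q ∣ m := hqd.trans (Nat.gcd_dvd_left _ _)
    have h2 : q ∣ a1 := hqd.trans (Nat.gcd_dvd_right _ _)
    have h3 : q ∣ a0 + a1 * t0 := (h1.trans (dvd_pow_self m two_ne_zero)).trans ht0.2
    have h4 : q ∣ a0 := (Nat.dvd_add_left (h2.mul_right t0)).mp h3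
    exact Nat.not_coprime_of_dvd_of_dvd hq.one_lt h4 h2 hco
  have hsub : ∀ t ∈ (range T).filter (fun t => m ^ 2 ∣ a0 + a1 * t), t % m ^ 2 = t0 % m ^ 2 := by
    intro t ht
    rw [mem_filter] at ht
    have h1 : a0 + a1 * t ≡ a0 + a1 * t0 [MOD m ^ 2] :=
      ((Nat.modEq_zero_iff_dvd).mpr ht.2).trans ((Nat.modEq_zero_iff_dvd).mpr ht0.2).symm
    have h2 : a1 * t ≡ a1 * t0 [MOD m ^ 2] := Nat.ModEq.add_left_cancel' a0 h1
    exact Nat.ModEq.cancel_left_of_coprime (by rw [Nat.coprime_iff_gcd_eq_one] at hcop; exact hcop) h2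
  have hinj : Set.InjOn (fun t => t / m ^ 2)
      ((range T).filter (fun t => m ^ 2 ∣ a0 + a1 * t) : Set ℕ) := by
    intro t ht t' ht' h
    have e1 := hsub t (by exact_mod_cast ht)
    have e2 := hsub t' (by exact_mod_cast ht')
    have h3 := Nat.div_add_mod t (m ^ 2)
    have h4 := Nat.div_add_mod t' (m ^ 2)
    simp only at h
    rw [← h3, ← h4, h, e1, e2]
  calc ((range T).filter (fun t => m ^ 2 ∣ a0 + a1 * t)).card
      = (((range T).filter (fun t => m ^ 2 ∣ a0 + a1 * t)).image (fun t => t / m ^ 2)).card :=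
        (card_image_of_injOn hinj).symm
    _ ≤ (range (T / m ^ 2 + 1)).card := by
        apply card_le_card
        intro s hs
        rw [mem_image] at hs
        obtain ⟨t, ht, rfl⟩ := hs
        rw [mem_filter, mem_range] at ht
        rw [mem_range]
        exact Nat.lt_succ_of_le (Nat.div_le_div_right ht.1.le)
    _ = T / m ^ 2 + 1 := card_range _

lemma sum_inv_sq_le (J : ℕ) :
    ∑ j ∈ range J, (1 : ℚ) / (2 * j + 5) ^ 2 ≤ 1 / 4 * (1 / 2 - 1 / ((J : ℚ) + 2)) := by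
  induction J with
  | zero => simp
  | succ J ih =>
    rw [sum_range_succ]
    have hJ : (0 : ℚ) ≤ J := Nat.cast_nonneg J
    have h1 : (1 : ℚ) / (2 * J + 5) ^ 2 ≤ 1 / 4 * (1 / ((J : ℚ) + 2) - 1 / ((J : ℚ) + 3)) := by
      have e : 1 / 4 * (1 / ((J : ℚ) + 2) - 1 / ((J : ℚ) + 3)) =
          1 / (4 * (((J : ℚ) + 2) * ((J : ℚ) + 3))) := by
        field_simp
        ring
      rw [e]
      apply one_div_le_one_div_of_le
      · positivity
      · nlinarith
    push_cast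
    have e2 : (J : ℚ) + 1 + 2 = J + 3 := by ring
    rw [e2]
    linarith

lemma exists_index {x R : ℕ} (hx : 0 < x) (hxR : x ≤ R ^ 2) (h : ¬ Squarefree x) :
    (2 ^ 2 ∣ x ∨ 3 ^ 2 ∣ x) ∨ ∃ j ∈ range R, (2 * j + 5) ^ 2 ∣ x := by
  rw [Nat.squarefree_iff_prime_squarefree] at h
  push Not at h
  obtain ⟨q, hq, hqx⟩ := h
  rw [← pow_two] at hqx
  have hqR : q ≤ R := by
    have h1 : q ^ 2 ≤ R ^ 2 := (Nat.le_of_dvd hx hqx).trans hxR
    exact le_of_pow_le_pow_left₀ two_ne_zero (Nat.zero_le R) h1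
  rcases Nat.lt_or_ge q 5 with h5 | h5
  · left
    have h2 := hq.two_le
    interval_cases q
    · left; exact hqx
    · right; exact hqx
    · exact absurd hq (by norm_num)
  · right
    have hodd : q % 2 = 1 := by
      rcases hq.eq_two_or_odd with h2 | h2
      · omega
      · exact h2
    refine ⟨(q - 5) / 2, ?_, ?_⟩
    · rw [mem_range]
      omega
    · have : 2 * ((q - 5) / 2) + 5 = q := by omega
      rw [this]
      exact hqx

/-- Two linear forms with coprime coefficients are squarefree at a common place. -/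
theorem two_forms (a0 a1 b0 b1 : ℕ) (ha : Nat.Coprime a0 a1) (hb : Nat.Coprime b0 b1)
    (ha0 : 0 < a0) (hb0 : 0 < b0) :
    ∃ t, Squarefree (a0 + a1 * t) ∧ Squarefree (b0 + b1 * t) := by
  classical
  by_contra hcon
  push Not at hcon
  set C := a0 + a1 + b0 + b1 with hC
  have hC1 : 1 ≤ C := by omega
  set K := 144 * C + 145 with hK
  set T := K ^ 2 with hT
  set R := 2 * C * K with hR
  -- sizes
  have hsize : ∀ u v t : ℕ, u ≤ C → v ≤ C → t < T → u + v * t ≤ R ^ 2 := by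
    intro u v t hu hv ht
    have h1 : v * t ≤ C * (K ^ 2) := Nat.mul_le_mul hv ht.le
    have hK1 : 1 ≤ K := by omega
    have h2 : R ^ 2 = 4 * (C * C) * K ^ 2 := by rw [hR]; ring
    have h3 : C * K ^ 2 ≤ (C * C) * K ^ 2 := Nat.mul_le_mul_right _ (Nat.le_mul_of_pos_left C hC1)
    have h4 : C ≤ (C * C) * K ^ 2 := by
      calc C = C * 1 := (mul_one C).symm
        _ ≤ (C * C) * K ^ 2 :=
          Nat.mul_le_mul (Nat.le_mul_of_pos_left C hC1) (Nat.one_le_pow _ _ hK1)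
    rw [h2]
    have h5 : 4 * (C * C) * K ^ 2 = 4 * ((C * C) * K ^ 2) := by ring
    omega
  -- bad sets
  let Sa : ℕ → Finset ℕ := fun m => (range T).filter (fun t => m ^ 2 ∣ a0 + a1 * t)
  let Sb : ℕ → Finset ℕ := fun m => (range T).filter (fun t => m ^ 2 ∣ b0 + b1 * t)
  have hcover : range T ⊆ ((Sa 2 ∪ Sa 3) ∪ (Sb 2 ∪ Sb 3)) ∪
      (range R).biUnion (fun j => Sa (2 * j + 5) ∪ Sb (2 * j + 5)) := by
    intro t ht
    have htT := mem_range.mp ht
    by_cases h : Squarefree (a0 + a1 * t)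
    · have h' := hcon t h
      rcases exists_index (by omega) (hsize b0 b1 t (by omega) (by omega) htT) h' with
        (h2 | h3) | ⟨j, hj, hd⟩
      · exact mem_union_left _ (mem_union_right _ (mem_union_left _ (mem_filter.mpr ⟨ht, h2⟩)))
      · exact mem_union_left _ (mem_union_right _ (mem_union_right _ (mem_filter.mpr ⟨ht, h3⟩)))
      · exact mem_union_right _ (mem_biUnion.mpr
          ⟨j, hj, mem_union_right _ (mem_filter.mpr ⟨ht, hd⟩)⟩)
    · rcases exists_index (by omega) (hsize a0 a1 t (by omega) (by omega) htT) h with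
        (h2 | h3) | ⟨j, hj, hd⟩
      · exact mem_union_left _ (mem_union_left _ (mem_union_left _ (mem_filter.mpr ⟨ht, h2⟩)))
      · exact mem_union_left _ (mem_union_left _ (mem_union_right _ (mem_filter.mpr ⟨ht, h3⟩)))
      · exact mem_union_right _ (mem_biUnion.mpr
          ⟨j, hj, mem_union_left _ (mem_filter.mpr ⟨ht, hd⟩)⟩)
  have hSa : ∀ m, 0 < m → ((Sa m).card : ℚ) ≤ (T : ℚ) / m ^ 2 + 1 := by
    intro m hm
    have h1 := card_sq_dvd_le a0 a1 m T ha hm
    have h2 : ((T / m ^ 2 : ℕ) : ℚ) ≤ (T : ℚ) / ((m ^ 2 : ℕ) : ℚ) := Nat.cast_div_le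
    have h3 : ((Sa m).card : ℚ) ≤ ((T / m ^ 2 + 1 : ℕ) : ℚ) := by exact_mod_cast h1
    push_cast at h2 h3 ⊢
    linarith
  have hSb : ∀ m, 0 < m → ((Sb m).card : ℚ) ≤ (T : ℚ) / m ^ 2 + 1 := by
    intro m hm
    have h1 := card_sq_dvd_le b0 b1 m T hb hm
    have h2 : ((T / m ^ 2 : ℕ) : ℚ) ≤ (T : ℚ) / ((m ^ 2 : ℕ) : ℚ) := Nat.cast_div_le
    have h3 : ((Sb m).card : ℚ) ≤ ((T / m ^ 2 + 1 : ℕ) : ℚ) := by exact_mod_cast h1
    push_cast at h2 h3 ⊢
    linarith
  have hcard := card_le_card hcover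
  rw [card_range] at hcard
  have hcard2 : T ≤ ((Sa 2).card + (Sa 3).card + ((Sb 2).card + (Sb 3).card)) +
      ∑ j ∈ range R, ((Sa (2 * j + 5)).card + (Sb (2 * j + 5)).card) := by
    refine hcard.trans ((card_union_le _ _).trans (Nat.add_le_add ?_ ?_))
    · refine (card_union_le _ _).trans (Nat.add_le_add (card_union_le _ _) (card_union_le _ _))
    · exact card_biUnion_le.trans (sum_le_sum fun j _ => card_union_le _ _)
  have hcard3 : (T : ℚ) ≤ (((Sa 2).card : ℚ) + (Sa 3).card + (((Sb 2).card : ℚ) + (Sb 3).card)) +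
      ∑ j ∈ range R, (((Sa (2 * j + 5)).card : ℚ) + (Sb (2 * j + 5)).card) := by
    have := (Nat.cast_le (α := ℚ)).mpr hcard2
    push_cast at this
    exact this
  have hsum : ∑ j ∈ range R, (((Sa (2 * j + 5)).card : ℚ) + (Sb (2 * j + 5)).card) ≤
      2 * (T : ℚ) * (1 / 8) + 2 * (R : ℚ) := by
    have h1 : ∑ j ∈ range R, (((Sa (2 * j + 5)).card : ℚ) + (Sb (2 * j + 5)).card) ≤
        ∑ j ∈ range R, (2 * (T : ℚ) * (1 / (2 * j + 5) ^ 2) + 2) := by
      apply sum_le_sum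
      intro j _
      have h2 := hSa (2 * j + 5) (by omega)
      have h3 := hSb (2 * j + 5) (by omega)
      push_cast at h2 h3
      have e : 2 * (T : ℚ) * (1 / (2 * j + 5) ^ 2) + 2 =
          ((T : ℚ) / (2 * j + 5) ^ 2 + 1) + ((T : ℚ) / (2 * j + 5) ^ 2 + 1) := by ring
      rw [e]
      exact add_le_add h2 h3
    have h4 : ∑ j ∈ range R, (2 * (T : ℚ) * (1 / (2 * j + 5) ^ 2) + 2) =
        2 * (T : ℚ) * (∑ j ∈ range R, (1 : ℚ) / (2 * j + 5) ^ 2) + 2 * (R : ℚ) := by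
      rw [sum_add_distrib, ← mul_sum, sum_const, card_range, nsmul_eq_mul]
      ring
    rw [h4] at h1
    have h5 := sum_inv_sq_le R
    have h6 : (0 : ℚ) ≤ 1 / ((R : ℚ) + 2) := by positivity
    have h7 : ∑ j ∈ range R, (1 : ℚ) / (2 * j + 5) ^ 2 ≤ 1 / 8 := by linarith
    have h8 : (0 : ℚ) ≤ 2 * (T : ℚ) := by positivity
    have h9 := mul_le_mul_of_nonneg_left h7 h8
    linarith
  have a2 := hSa 2 (by norm_num)
  have a3 := hSa 3 (by norm_num)
  have b2 := hSb 2 (by norm_num)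
  have b3 := hSb 3 (by norm_num)
  norm_num at a2 a3 b2 b3
  have hfin : (T : ℚ) ≤ 72 * R + 144 := by linarith
  have hTR : (T : ℚ) = (K : ℚ) * K := by rw [hT]; push_cast; ring
  have hRR : (R : ℚ) = 2 * C * K := by rw [hR]; push_cast; ring
  have hKK : (K : ℚ) = 144 * C + 145 := by rw [hK]; push_cast; ring
  have hC0 : (1 : ℚ) ≤ C := by exact_mod_cast hC1
  rw [hTR, hRR] at hfin
  have hKp : (1 : ℚ) ≤ K := by rw [hKK]; linarith
  have e1 : (K : ℚ) * K = 144 * ((C : ℚ) * K) + 145 * K := by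
    have e0 : (K : ℚ) * K = (144 * C + 145) * K := by rw [← hKK]
    rw [e0]
    ring
  have e2 : 72 * (2 * (C : ℚ) * K) + 144 = 144 * ((C : ℚ) * K) + 144 := by ring
  rw [e1, e2] at hfin
  linarith

end Pool.Agent.Lib.MP_dcbbfc_nt
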