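import Pool.Agent.Lib.MP_dcbbfc_nt.Sieve

/-! The function `sd d m = ∑_{k^d ∣ m} k^d` along progressions modulo powers of a prime. -/

set_option autoImplicit false

open Finset

namespace Pool.Agent.Lib.MP_dcbbfc_nt

/-- The sum of the divisors of `m` which are `d`-th powers. -/
noncomputable def sd (d m : ℕ) : ℕ :=
  letI := Classical.decPred fun i : ℕ => ∃ k : ℕ, k ^ d = i
  ∑ i ∈ m.divisors.filter (fun i => ∃ k : ℕ, k ^ d = i), i

lemma sd_eq (d m : ℕ) [DecidablePred fun i : ℕ => ∃ k : ℕ, k ^ d = i] :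
    sd d m = ∑ i ∈ m.divisors.filter (fun i => ∃ k : ℕ, k ^ d = i), i := by
  unfold sd
  congr

lemma sd_squarefree {d m : ℕ} (hd : 2 ≤ d) (hm : Squarefree m) : sd d m = 1 := by
  classical
  rw [sd_eq]
  have : m.divisors.filter (fun i => ∃ k : ℕ, k ^ d = i) = {1} := by
    ext i
    simp only [mem_filter, Nat.mem_divisors, mem_singleton]
    constructor
    · rintro ⟨⟨hi, _⟩, k, rfl⟩
      have h1 : k * k ∣ m := by
        rw [← pow_two]
        exact (pow_dvd_pow k hd).trans hi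
      have h2 := Nat.isUnit_iff.mp (hm k h1)
      rw [h2, one_pow]
    · rintro rfl
      exact ⟨⟨one_dvd _, hm.ne_zero⟩, 1, one_pow d⟩
  rw [this, sum_singleton]

lemma sd_prime_pow {d p m : ℕ} (hd : 2 ≤ d) (hp : p.Prime) (hm : Squarefree m)
    (hpm : ¬ p ∣ m) : sd d (p ^ d * m) = 1 + p ^ d := by
  classical
  rw [sd_eq]
  have hne : p ^ d * m ≠ 0 := mul_ne_zero (pow_ne_zero _ hp.ne_zero) hm.ne_zero
  have : (p ^ d * m).divisors.filter (fun i => ∃ k : ℕ, k ^ d = i) = {1, p ^ d} := by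
    ext i
    simp only [mem_filter, Nat.mem_divisors, mem_insert, mem_singleton]
    constructor
    · rintro ⟨⟨hi, _⟩, k, rfl⟩
      have hk0 : k ≠ 0 := by
        rintro rfl
        rw [zero_pow (by omega)] at hi
        exact hne (zero_dvd_iff.mp hi)
      have huniq : ∀ {q : ℕ}, q.Prime → q ∣ k → q = p := by
        intro q hq hqk
        by_contra hqp
        have h1 : q ^ 2 ∣ p ^ d * m :=
          ((pow_dvd_pow_of_dvd hqk 2).trans (pow_dvd_pow k hd)).trans hi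
        have h2 : Nat.Coprime (q ^ 2) (p ^ d) :=
          Nat.Coprime.pow 2 d ((Nat.coprime_primes hq hp).mpr hqp)
        have h3 : q ^ 2 ∣ m := h2.dvd_of_dvd_mul_left h1
        rw [pow_two] at h3
        exact hq.one_lt.ne' (Nat.isUnit_iff.mp (hm q h3))
      have hk := Nat.eq_prime_pow_of_unique_prime_dvd hk0 huniq
      set j := k.primeFactorsList.length with hj
      rcases Nat.lt_or_ge j 2 with h | h
      · interval_cases j
        · left
          rw [hk, pow_zero, one_pow]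
        · right
          rw [hk, pow_one]
      · exfalso
        apply hpm
        have h1 : p ^ (2 * d) ∣ p ^ d * m := by
          refine Dvd.dvd.trans ?_ hi
          rw [hk, ← pow_mul]
          exact pow_dvd_pow p (Nat.mul_le_mul_right d h)
        rw [two_mul, pow_add] at h1
        have h2 : p ^ d ∣ m := Nat.dvd_of_mul_dvd_mul_left (pow_pos hp.pos d) h1
        exact (dvd_pow_self p (by omega)).trans h2
    · rintro (rfl | rfl)
      · exact ⟨⟨one_dvd _, hne⟩, 1, one_pow d⟩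
      · exact ⟨⟨dvd_mul_right _ _, hne⟩, p, rfl⟩
  rw [this, sum_pair]
  exact (Nat.one_lt_pow (by omega) hp.one_lt).ne

lemma sd_prime_pow_gt {d e p m : ℕ} (he : 2 ≤ e) (hde : d < e) (hp : p.Prime)
    (hm : Squarefree m) (hpm : ¬ p ∣ m) : sd e (p ^ d * m) = 1 := by
  classical
  rw [sd_eq]
  have hne : p ^ d * m ≠ 0 := mul_ne_zero (pow_ne_zero _ hp.ne_zero) hm.ne_zero
  have : (p ^ d * m).divisors.filter (fun i => ∃ k : ℕ, k ^ e = i) = {1} := by
    ext i
    simp only [mem_filter, Nat.mem_divisors, mem_singleton]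
    constructor
    · rintro ⟨⟨hi, _⟩, k, rfl⟩
      have hk1 : k = 1 := by
        by_contra hk
        obtain ⟨q, hq, hqk⟩ := Nat.exists_prime_and_dvd hk
        have h1 : q ^ e ∣ p ^ d * m := (pow_dvd_pow_of_dvd hqk e).trans hi
        by_cases hqp : q = p
        · subst hqp
          apply hpm
          have h2 : q ^ (d + 1) ∣ q ^ d * m := (pow_dvd_pow q hde).trans h1
          rw [pow_succ] at h2
          exact Nat.dvd_of_mul_dvd_mul_left (pow_pos hp.pos d) h2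
        · have h2 : q ^ 2 ∣ p ^ d * m := (pow_dvd_pow q he).trans h1
          have h3 : Nat.Coprime (q ^ 2) (p ^ d) :=
            Nat.Coprime.pow 2 d ((Nat.coprime_primes hq hp).mpr hqp)
          have h4 : q ^ 2 ∣ m := h3.dvd_of_dvd_mul_left h2
          rw [pow_two] at h4
          exact hq.one_lt.ne' (Nat.isUnit_iff.mp (hm q h4))
      rw [hk1, one_pow]
    · rintro rfl
      exact ⟨⟨one_dvd _, hne⟩, 1, one_pow e⟩
  rw [this, sum_singleton]

/-- The two progressions `l ^ a n + 1` and `l ^ a' n + 1` are told apart. -/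
theorem exists_place {l d a a' : ℕ} (hl : l.Prime) (hd : 1 ≤ d) (ha : 1 ≤ a) (haa : a < a') :
    ∃ n p m : ℕ, p.Prime ∧ p ≠ l ∧ Squarefree m ∧ ¬ p ∣ m ∧ l ^ a * n + 1 = p ^ d * m ∧
      Squarefree (l ^ a' * n + 1) := by
  obtain ⟨p, hple, hp⟩ := Nat.exists_infinite_primes (l ^ a' + 1)
  have hlpow : l ≤ l ^ a' := Nat.le_self_pow (by omega) l
  have hpl : p ≠ l := by omega
  have hcop : Nat.Coprime p l := (Nat.coprime_primes hp hl).mpr hpl
  -- the residue class
  have hco : Nat.Coprime (l ^ a) (p ^ (d + 1)) := (hcop.symm.pow a (d + 1))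
  obtain ⟨x, hx1, hx2⟩ := Nat.chineseRemainder hco 1 (p ^ d)
  -- make it positive
  set y := x + l ^ a * p ^ (d + 1) with hy
  have hla : 0 < l ^ a := pow_pos hl.pos a
  have hppos : 0 < p ^ (d + 1) := pow_pos hp.pos _
  have hy1 : y ≡ 1 [MOD l ^ a] := by
    rw [hy]
    have : x + l ^ a * p ^ (d + 1) ≡ x + 0 [MOD l ^ a] :=
      Nat.ModEq.add_left x ((Nat.modEq_zero_iff_dvd).mpr (dvd_mul_right _ _))
    exact this.trans (by rw [add_zero]; exact hx1)
  have hy2 : y ≡ p ^ d [MOD p ^ (d + 1)] := by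
    rw [hy]
    have : x + l ^ a * p ^ (d + 1) ≡ x + 0 [MOD p ^ (d + 1)] :=
      Nat.ModEq.add_left x ((Nat.modEq_zero_iff_dvd).mpr (dvd_mul_left _ _))
    exact this.trans (by rw [add_zero]; exact hx2)
  have hypos : 1 ≤ y := by
    rw [hy]
    have := Nat.mul_pos hla hppos
    omega
  obtain ⟨n0, hn0⟩ : ∃ n0, y = l ^ a * n0 + 1 := by
    obtain ⟨c, hc⟩ := (Nat.modEq_iff_dvd' hypos).mp hy1.symm
    exact ⟨c, by omega⟩
  -- `y = p ^ d * a0` with `a0` prime to `p`
  have hdvd : p ^ d ∣ y := by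
    have h1 : y ≡ p ^ d [MOD p ^ d] := hy2.of_dvd (pow_dvd_pow p (Nat.le_succ d))
    have h2 : y ≡ 0 [MOD p ^ d] := h1.trans ((Nat.modEq_zero_iff_dvd).mpr dvd_rfl)
    exact (Nat.modEq_zero_iff_dvd).mp h2
  obtain ⟨a0, ha0⟩ := hdvd
  have hpa0 : ¬ p ∣ a0 := by
    intro h
    have h1 : p ^ (d + 1) ∣ y := by
      rw [ha0, pow_succ]
      exact Nat.mul_dvd_mul_left _ h
    have h2 : p ^ (d + 1) ∣ p ^ d := by
      have h3 : y ≡ 0 [MOD p ^ (d + 1)] := (Nat.modEq_zero_iff_dvd).mpr h1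
      exact (Nat.modEq_zero_iff_dvd).mp (hy2.symm.trans h3)
    have h4 := Nat.le_of_dvd (pow_pos hp.pos d) h2
    have h5 : p ^ d < p ^ (d + 1) := Nat.pow_lt_pow_right hp.one_lt (Nat.lt_succ_self d)
    omega
  have hla0 : ¬ l ∣ a0 := by
    intro h
    have h1 : l ∣ y := by rw [ha0]; exact h.mul_left _
    rw [hn0] at h1
    have h2 : l ∣ l ^ a * n0 := (dvd_pow_self l (by omega)).mul_right _
    have h3 := (Nat.dvd_add_right h2).mp h1
    exact hl.one_lt.ne' (Nat.dvd_one.mp h3)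
  have hcoA : Nat.Coprime a0 (l ^ a * p) := by
    apply Nat.Coprime.mul_right
    · exact Nat.Coprime.pow_right a ((Nat.Prime.coprime_iff_not_dvd hl).mpr hla0).symm
    · exact ((Nat.Prime.coprime_iff_not_dvd hp).mpr hpa0).symm
  set b0 := l ^ a' * n0 + 1 with hb0
  have hlb0 : ¬ l ∣ b0 := by
    intro h
    have h2 : l ∣ l ^ a' * n0 := (dvd_pow_self l (by omega)).mul_right _
    have h3 := (Nat.dvd_add_right h2).mp h
    exact hl.one_lt.ne' (Nat.dvd_one.mp h3)
  have hpb0 : ¬ p ∣ b0 := by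
    intro h
    obtain ⟨e, he⟩ : ∃ e, a' = a + (e + 1) := ⟨a' - a - 1, by omega⟩
    have h1 : b0 + (l ^ (e + 1) - 1) = l ^ (e + 1) * y := by
      have hle : 1 ≤ l ^ (e + 1) := Nat.one_le_pow _ _ hl.pos
      rw [hb0, hn0, he, pow_add]
      zify [hle]
      ring
    have hpy : p ∣ y := by
      rw [ha0]
      exact (dvd_pow_self p (by omega)).mul_right _
    have h2 : p ∣ b0 + (l ^ (e + 1) - 1) := by
      rw [h1]
      exact hpy.mul_left _
    have h3 : p ∣ l ^ (e + 1) - 1 := (Nat.dvd_add_right h).mp h2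
    have h4 : 0 < l ^ (e + 1) - 1 := by
      have : 1 < l ^ (e + 1) := Nat.one_lt_pow (by omega) hl.one_lt
      omega
    have h5 := Nat.le_of_dvd h4 h3
    have h6 : l ^ (e + 1) ≤ l ^ a' := Nat.pow_le_pow_right hl.pos (by omega)
    omega
  have hcoB : Nat.Coprime b0 (l ^ a' * p ^ (d + 1)) := by
    apply Nat.Coprime.mul_right
    · exact Nat.Coprime.pow_right a' ((Nat.Prime.coprime_iff_not_dvd hl).mpr hlb0).symm
    · exact Nat.Coprime.pow_right (d + 1) ((Nat.Prime.coprime_iff_not_dvd hp).mpr hpb0).symm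
  have ha0pos : 0 < a0 := by
    rcases Nat.eq_zero_or_pos a0 with h | h
    · exact absurd (h ▸ dvd_zero p) hpa0
    · exact h
  obtain ⟨t, htA, htB⟩ := two_forms a0 (l ^ a * p) b0 (l ^ a' * p ^ (d + 1)) hcoA hcoB ha0pos
    (by rw [hb0]; exact Nat.succ_pos _)
  refine ⟨n0 + p ^ (d + 1) * t, p, a0 + l ^ a * p * t, hp, hpl, htA, ?_, ?_, ?_⟩
  · intro h
    have h2 : p ∣ l ^ a * p * t := (dvd_mul_left p (l ^ a)).mul_right t
    exact hpa0 ((Nat.dvd_add_left h2).mp h)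
  · calc l ^ a * (n0 + p ^ (d + 1) * t) + 1 = (l ^ a * n0 + 1) + l ^ a * p ^ (d + 1) * t := by ring
      _ = p ^ d * a0 + l ^ a * p ^ (d + 1) * t := by rw [← hn0, ha0]
      _ = p ^ d * (a0 + l ^ a * p * t) := by ring
  · have h1 : l ^ a' * (n0 + p ^ (d + 1) * t) + 1 = b0 + l ^ a' * p ^ (d + 1) * t := by
      rw [hb0]; ring
    rw [h1]
    exact htB

/-- For weights `c` whose first nonzero one (modulo `l`) on `s` is at `d0`, the sequences
`n ↦ ∑ c e * sd e (l ^ a n + 1)` modulo `l`, `a ≥ 1`, are pairwise different. -/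
theorem kernel_inj {l d0 : ℕ} (hl : l.Prime) (s : Finset ℕ) (hs : ∀ e ∈ s, 2 ≤ e) (hd0 : d0 ∈ s)
    (c : ℕ → ZMod l) (hc0 : c d0 ≠ 0) (hc : ∀ e ∈ s, e < d0 → c e = 0)
    {a a' : ℕ} (ha : 1 ≤ a) (haa : a < a') :
    ∃ n : ℕ, ∑ e ∈ s, c e * ((sd e (l ^ a * n + 1) : ℕ) : ZMod l) ≠
      ∑ e ∈ s, c e * ((sd e (l ^ a' * n + 1) : ℕ) : ZMod l) := by
  classical
  have hfact : Fact l.Prime := ⟨hl⟩
  obtain ⟨n, p, m, hp, hpl, hm, hpm, h1, h2⟩ := exists_place hl
    (show 1 ≤ d0 by have := hs d0 hd0; omega) ha haa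
  refine ⟨n, ?_⟩
  have e1 : ∑ e ∈ s, c e * ((sd e (l ^ a * n + 1) : ℕ) : ZMod l) =
      ∑ e ∈ s, (c e + if e = d0 then c d0 * ((p ^ d0 : ℕ) : ZMod l) else 0) := by
    apply sum_congr rfl
    intro e he
    rw [h1]
    rcases lt_trichotomy e d0 with h | h | h
    · rw [hc e he h, zero_mul, if_neg (by omega), add_zero]
    · subst h
      rw [sd_prime_pow (hs e he) hp hm hpm, if_pos rfl]
      push_cast
      ring
    · rw [sd_prime_pow_gt (hs e he) h hp hm hpm, if_neg (by omega), add_zero, Nat.cast_one, mul_one]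
  have e2 : ∑ e ∈ s, c e * ((sd e (l ^ a' * n + 1) : ℕ) : ZMod l) = ∑ e ∈ s, c e := by
    apply sum_congr rfl
    intro e he
    rw [sd_squarefree (hs e he) h2, Nat.cast_one, mul_one]
  rw [e1, e2, sum_add_distrib, sum_ite_eq' s d0, if_pos hd0]
  intro h
  have h3 : c d0 * ((p ^ d0 : ℕ) : ZMod l) = 0 := by
    have h4 : ∑ e ∈ s, c e + c d0 * ((p ^ d0 : ℕ) : ZMod l) = ∑ e ∈ s, c e + 0 := by
      rw [add_zero]; exact h
    exact add_left_cancel h4
  rcases mul_eq_zero.mp h3 with h5 | h5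
  · exact hc0 h5
  · rw [ZMod.natCast_eq_zero_iff] at h5
    have h6 := hl.dvd_of_dvd_pow h5
    exact hpl ((Nat.prime_dvd_prime_iff_eq hl hp).mp h6).symm

end Pool.Agent.Lib.MP_dcbbfc_nt
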